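import Pool.Agent.Zk29.Hy.B9
import Pool.Agent.H713R5.QJ.TOPG

/-!
# Polynomials with several free critical points: definitions
-/

set_option autoImplicit false
open Set Filter Topology Metric Polynomial
open scoped OnePoint

namespace Pool.Agent.Zk29.Po

open Pool.Agent.H792R2.CE Pool.Agent.H792R2.CE.C2x Pool.Agent.Zk29.Rat
open Pool.Agent.H713R5.QJ (ev Good opg_holds)

/-- The critical points outside of `A`. -/
def Fa (A : ℂ → Prop) (P Q : ℂ[X]) : Set ℂ := {z | (wr P Q).eval z = 0 ∧ ¬ A z}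

/-- The standing assumptions. -/
structure Ma (A : ℂ → Prop) (d : ℕ) (P Q : ℂ[X]) (U U₁ : Set ℂ) : Prop where
  d2 : 2 ≤ d
  dat : Dat P Q d
  sim : ∀ z ∈ Fa A P Q, (derivative (wr P Q)).eval z ≠ 0
  step : ∀ z, ¬ A z → Q.eval z ≠ 0 ∧ ¬ A (rf P Q z)
  disc : ∀ (v : ℂ) (m : ℕ) (ρ : ℝ), ¬ A v → 1 ≤ m → 0 < ρ →
    (∀ x, ‖x - v‖ ≤ 2 * ρ → ∀ j < m, Q.eval ((rf P Q)^[j] x) ≠ 0) →
    (∀ x, ‖x - v‖ ≤ 2 * ρ → ‖(rf P Q)^[m] x - (rf P Q)^[m] v‖ ≤ ρ / 4) →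
    ‖(rf P Q)^[m] v - v‖ ≤ ρ → False
  cpt : IsCompact {z | ¬ A z}
  trap : Trap P Q U
  bd : ∀ z ∈ closure U, z ∉ U → rf P Q z ∉ closure U
  q : ∀ z ∈ closure U, Q.eval z ≠ 0
  w : ∀ z ∈ closure U, (wr P Q).eval z = 0 → z ∈ Fa A P Q
  o : IsOpen U₁
  s : closure U₁ ⊆ U
  n : ∀ z : ℂ, ¬ A z → z ∈ U₁

/-- The family in the direction `(H, G)`. -/
structure Fm (A : ℂ → Prop) (P Q : ℂ[X]) (U U₁ : Set ℂ) (H G : ℂ[X]) (r : ℝ) (τ : ℂ → ℂ → ℂ) :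
    Prop where
  hr : 0 < r
  q : ∀ t ∈ ball (0 : ℂ) r, ∀ z ∈ closure U, (Q + C t * G).eval z ≠ 0
  bd : ∀ t ∈ ball (0 : ℂ) r, ∀ z ∈ closure U, z ∉ U → rf (P + C t * H) (Q + C t * G) z ∉ closure U
  crit : ∀ t ∈ ball (0 : ℂ) r, ∀ z ∈ closure U, (wr (P + C t * H) (Q + C t * G)).eval z = 0 →
    ∃ c ∈ Fa A P Q, z = τ c t
  τ0 : ∀ c ∈ Fa A P Q, τ c 0 = c
  τd : ∀ c ∈ Fa A P Q, DifferentiableOn ℂ (τ c) (ball 0 r)
  orb : ∀ c ∈ Fa A P Q, ∀ t ∈ ball (0 : ℂ) r, ∀ j : ℕ,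
    (rf (P + C t * H) (Q + C t * G))^[j] (τ c t) ∈ U₁ ∧
      (Q + C t * G).eval ((rf (P + C t * H) (Q + C t * G))^[j] (τ c t)) ≠ 0

/-- There are families in all directions of degree at most `D`. -/
structure Dir (A : ℂ → Prop) (d D : ℕ) (P Q : ℂ[X]) (U U₁ : Set ℂ) : Prop where
  sp : ∀ᵐ x : ℂ, (SP P Q d x).natDegree ≤ D
  fam : ∀ k ≤ D, ∃ (H G : ℂ[X]) (r : ℝ) (τ : ℂ → ℂ → ℂ), H * Q - P * G = X ^ k ∧
    Fm A P Q U U₁ H G r τ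

/-- The free critical points of the polynomial `T`. -/
def Fp (T : ℂ[X]) : Set ℂ := {z | (derivative T).eval z = 0 ∧ ¬ Good (ev T) z}

/-- The free critical points are simple. -/
def Sim (T : ℂ[X]) : Prop := ∀ z ∈ Fp T, (derivative (derivative T)).eval z ≠ 0

/-- `T` is a limit of polynomials of the same degree with fewer free critical points. -/
def FewP (T : ℂ[X]) : Prop :=
  ∀ ε : ℝ, 0 < ε → ∃ S : ℂ[X], S.natDegree = T.natDegree ∧ Sim S ∧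
    (∀ i, ‖S.coeff i - T.coeff i‖ < ε) ∧ (Fp S).ncard < (Fp T).ncard

lemma wr_one (T : ℂ[X]) : wr T 1 = derivative T := by
  unfold wr
  simp

lemma rf_one' (T : ℂ[X]) : rf T 1 = ev T := by
  ext z
  simp [rf, ev]

lemma Fa_one (T : ℂ[X]) : Fa (Good (ev T)) T 1 = Fp T := by
  unfold Fa Fp
  rw [wr_one]

/-! ### Modules -/

/-- Module TRAP: trapping neighbourhoods (adapt `Zk29/Hy/B3.lean`). -/
def S_TRAP : Prop := ∀ T : ℂ[X], 2 ≤ T.natDegree → ∀ N : Set ℂ, IsOpen N →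
  Bornology.IsBounded N → (∀ z : ℂ, ¬ Good (ev T) z → z ∈ N) →
  ∃ U : Set ℂ, Trap T 1 U ∧ U ⊆ N ∧ (∀ z : ℂ, ¬ Good (ev T) z → z ∈ U) ∧
    ∀ z ∈ closure U, z ∉ U → rf T 1 z ∉ closure U

/-- Module CPT: the set of the points which are not good is compact. -/
def S_CPT : Prop := ∀ T : ℂ[X], 2 ≤ T.natDegree → IsCompact {z : ℂ | ¬ Good (ev T) z}

/-- Module DISC: a disc which is mapped well into itself (adapt `att_of_disc` in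
`Zk29/Mu/R1.lean`). -/
def S_DISC : Prop := ∀ (T : ℂ[X]) (v : ℂ) (m : ℕ) (ρ : ℝ), 1 ≤ m → 0 < ρ →
  (∀ x, ‖x - v‖ ≤ 2 * ρ → ‖(ev T)^[m] x - (ev T)^[m] v‖ ≤ ρ / 4) →
  ‖(ev T)^[m] v - v‖ ≤ ρ → Good (ev T) v

/-- Module REG: the regions (from TRAP, CPT and DISC; adapt `exists_many` in
`Zk29/Mu/F1.lean`). -/
def S_REG : Prop := ∀ T : ℂ[X], 2 ≤ T.natDegree → Sim T →
  ∃ U U₁ : Set ℂ, Ma (Good (ev T)) T.natDegree T 1 U U₁

/-- Module FAM: the families (adapt `exists_fam` in `Zk29/Mu/F1.lean`; `opg_holds` replaces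
`att_stable_pow`; the critical points are continued with the implicit function theorem in `z`,
which is possible since `T'' ≠ 0` at the free critical points). -/
def S_FAM : Prop := ∀ (T : ℂ[X]) (U U₁ : Set ℂ), Ma (Good (ev T)) T.natDegree T 1 U U₁ →
  ¬ FewP T → ∀ k : ℕ, k < T.natDegree →
    ∃ (r : ℝ) (τ : ℂ → ℂ → ℂ), Fm (Good (ev T)) T 1 U U₁ (X ^ k) 0 r τ

/-- Module SPD: the degree of the polynomial part. -/
def S_SPD : Prop := ∀ (P : ℂ[X]) (d : ℕ), 2 ≤ d → P.natDegree = d → ∀ x : ℂ, Gen P 1 d x →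
  (SP P 1 d x).natDegree ≤ d - 2

/-- The polynomial with given coefficients. -/
noncomputable def pl {d : ℕ} (a : Fin (d + 1) → ℂ) : ℂ[X] := ∑ i : Fin (d + 1), C (a i) * X ^ (i : ℕ)

/-- Module NEAR: the free critical points of nearby polynomials (adapt `nice_near` in
`Zk29/Mu/G4.lean`). -/
def S_NEAR : Prop := ∀ (d : ℕ) (T : ℂ[X]), 2 ≤ d → T.natDegree = d → Sim T → ∀ ε : ℝ, 0 < ε →
  ∀ᶠ a : Fin (d + 1) → ℂ in 𝓝 0, (T + pl a).natDegree = d ∧ Sim (T + pl a) ∧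
    ∃ g : ℂ → ℂ, (∀ z ∈ Fp (T + pl a), g z ∈ Fp T ∧ ‖z - g z‖ < ε) ∧ Set.InjOn g (Fp (T + pl a))

/-- Module NICE: density of the polynomials with simple free critical points. -/
def S_NICE : Prop := ∀ (d : ℕ) (T : ℂ[X]), 2 ≤ d → T.natDegree = d → ∀ ε : ℝ, 0 < ε →
  ∃ a : Fin (d + 1) → ℂ, ‖a‖ < ε ∧ (T + pl a).natDegree = d ∧ Sim (T + pl a)

end Pool.Agent.Zk29.Po
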