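import Pool.Agent.Zk29.Po.D
import Pool.Agent.Zk29.Mu.A2

/-!
# Polynomials on the sphere: modules
-/

set_option autoImplicit false
open Set Filter Topology Metric Polynomial
open scoped OnePoint

namespace Pool.Agent.Zk29.Po

open Pool.Agent.H792R2.CE Pool.Agent.Helper114.Herman
open Pool.Agent.H713R5.QJ (ev Good opg_holds)
open Pool.Agent.Zk29.Mu (Basin Sink Hyp)

/-- Module BAS: the basins on the sphere. -/
def S_BAS : Prop := ∀ T : ℂ[X], 2 ≤ T.natDegree → Sink (sph T.natDegree T 1) 1 ∞ ∧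
  ∀ z : ℂ, (Basin (sph T.natDegree T 1) (z : OnePoint ℂ) ↔ Good (ev T) z)

/-- Module HYPP: hyperbolic polynomials in the sense of the frozen statement. -/
def S_HYPP : Prop := ∀ T : ℂ[X], 2 ≤ T.natDegree →
  (∀ z : ℂ, (derivative T).eval z = 0 → Good (ev T) z) → Hyp T 1

/-- Module JOINT: joint continuity of the iterates (adapt `joint` in `Zk29/Mu/G1.lean`). -/
def S_JOINT : Prop := ∀ (d : ℕ) (T : ℂ[X]), 2 ≤ d → T.natDegree = d → ∀ (n : ℕ) (x : OnePoint ℂ),
  ContinuousAt (fun p : (Fin (d + 1) → ℂ) × OnePoint ℂ => (sph d (T + pl p.1) 1)^[n] p.2) (0, x)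

end Pool.Agent.Zk29.Po
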