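import Pool.Agent.Zk29.Po.D

/-!
# Several free critical points: first lemmas
-/

set_option autoImplicit false
open Set Filter Topology Metric Polynomial
open scoped OnePoint

namespace Pool.Agent.Zk29.Po

open Pool.Agent.H792R2.CE Pool.Agent.H792R2.CE.C2x Pool.Agent.Zk29.Rat

variable {A : ℂ → Prop} {d : ℕ} {P Q : ℂ[X]} {c : ℂ} {U U₁ : Set ℂ}

lemma Fa_fin (hN : wr P Q ≠ 0) : (Fa A P Q).Finite := by
  refine Set.Finite.subset ((wr P Q).roots.toFinset.finite_toSet) fun z hz => ?_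
  simp [hN, hz.1]

lemma Ma.N0 (O : Ma A d P Q U U₁) : wr P Q ≠ 0 := O.dat.wn

lemma Ma.mul (O : Ma A d P Q U U₁) (hc : c ∈ Fa A P Q) : (wr P Q).rootMultiplicity c = 1 := by
  have h1 : 0 < (wr P Q).rootMultiplicity c := (rootMultiplicity_pos O.N0).2 hc.1
  have h2 : ¬ 1 < (wr P Q).rootMultiplicity c := by
    intro h3
    exact O.sim c hc ((one_lt_rootMultiplicity_iff_isRoot O.N0).1 h3).2
  omega

lemma Ma.it (O : Ma A d P Q U U₁) {z : ℂ} (hz : ¬ A z) (j : ℕ) :
    ¬ A ((rf P Q)^[j] z) ∧ Q.eval ((rf P Q)^[j] z) ≠ 0 := by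
  have h1 : ¬ A ((rf P Q)^[j] z) := by
    induction j with
    | zero => exact hz
    | succ j ih =>
      rw [Function.iterate_succ_apply']
      exact (O.step _ ih).2
  exact ⟨h1, (O.step _ h1).1⟩

end Pool.Agent.Zk29.Po
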