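import Pool.Agent.Zk29.Po.F2

/-!
# The functionals of the closed critical orbits
-/

set_option autoImplicit false
open Set Filter Topology Metric Polynomial
open scoped OnePoint

namespace Pool.Agent.Zk29.Po

open Pool.Agent.H792R2.CE Pool.Agent.H792R2.CE.C2x Pool.Agent.Zk29.Rat
open Pool.Agent.Zk29.Hy (XX NN lm lm_nonneg)
open Pool.Agent.Helper114.Herman

variable {A : ℂ → Prop} {d : ℕ} {P Q : ℂ[X]} {c c' : ℂ} {U U₁ : Set ℂ} {H G : ℂ[X]} {r : ℝ} {τ : ℂ → ℂ → ℂ}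

/-- Arbitrarily close to `u` there are points which leave `U`. -/
def Lv (P Q : ℂ[X]) (U : Set ℂ) (u : ℂ) : Prop :=
  ∀ s : ℝ, 0 < s → ∃ y, ‖y - u‖ < s ∧ ∃ N, y ∉ UR P Q U N

/-- The functional of the orbit of the critical point `c` at time `J` and of `c'`. -/
noncomputable def ellM (P Q : ℂ[X]) (c c' : ℂ) (J : ℕ) : ℂ[X] →ₗ[ℂ] ℂ :=
  ell P Q c (fun j => (rf P Q)^[j] (rf P Q c))
      (fun j => (deriv ((rf P Q)^[j]) (rf P Q c))⁻¹) J -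
    ((deriv ((rf P Q)^[J]) (rf P Q c))⁻¹ / Q.eval c' ^ 2) • leval c'

lemma Ma.qorb (O : Ma A d P Q U U₁) (hc : c ∈ Fa A P Q) (j : ℕ) :
    Q.eval ((rf P Q)^[j] c) ≠ 0 :=
  (O.it hc.2 j).2

lemma Ma.norb (O : Ma A d P Q U U₁) (hc : c ∈ Fa A P Q) (j : ℕ) :
    ¬ A ((rf P Q)^[j] c) :=
  (O.it hc.2 j).1

lemma Ma.qv (O : Ma A d P Q U U₁) (hc : c ∈ Fa A P Q) (j : ℕ) :
    Q.eval ((rf P Q)^[j] (rf P Q c)) ≠ 0 := by
  have := O.qorb hc (j + 1)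
  rwa [Function.iterate_succ_apply] at this

lemma Ma.nv (O : Ma A d P Q U U₁) (hc : c ∈ Fa A P Q) (j : ℕ) :
    ¬ A ((rf P Q)^[j] (rf P Q c)) := by
  have := O.norb hc (j + 1)
  rwa [Function.iterate_succ_apply] at this

lemma Ma.ne_deriv (O : Ma A d P Q U U₁) (hc : c ∈ Fa A P Q)
    (hne : ∀ j, (wr P Q).eval ((rf P Q)^[j] (rf P Q c)) ≠ 0) (j : ℕ) :
    deriv ((rf P Q)^[j]) (rf P Q c) ≠ 0 := by
  induction j with
  | zero =>
    rw [Function.iterate_zero]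
    rw [deriv_id]
    exact one_ne_zero
  | succ j ih =>
    rw [rf_iter_deriv_succ j fun i _ => O.qv hc i]
    exact mul_ne_zero (div_ne_zero (hne j) (pow_ne_zero 2 (O.qv hc j))) ih

lemma Ma.kr (O : Ma A d P Q U U₁) {z : ℂ} (hz : ¬ A z) :
    z ∈ KR P Q U := by
  have h1 : ∀ n, ∀ z : ℂ, ¬ A z → z ∈ UR P Q U n := by
    intro n
    induction n with
    | zero => exact fun z hz => O.s (subset_closure (O.n z hz))
    | succ n ih =>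
      intro z hz
      have h2 := O.it hz
      exact ⟨(h2 0).2, ih _ (h2 1).1⟩
  exact mem_iInter.2 fun n => h1 n z hz

theorem Fm.deriv_eq (O : Ma A d P Q U U₁) (F : Fm A P Q U U₁ H G r τ) (hc : c ∈ Fa A P Q)
    (hc' : c' ∈ Fa A P Q)
    (hne : ∀ j, (wr P Q).eval ((rf P Q)^[j] (rf P Q c)) ≠ 0) (J : ℕ) :
    deriv (fun t => XX P Q H G (τ c) (J + 1) t - XX P Q H G (τ c') 1 t) 0 =
      deriv ((rf P Q)^[J]) (rf P Q c) * ellM P Q c c' J (H * Q - P * G) := by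
  have hmem0 : (0 : ℂ) ∈ ball (0 : ℂ) r := mem_ball_self F.hr
  have hτd : ∀ c ∈ Fa A P Q, HasDerivAt (τ c) (deriv (τ c) 0) 0 := fun c hc =>
    ((F.τd c hc).differentiableAt (isOpen_ball.mem_nhds hmem0)).hasDerivAt
  have hd := O.ne_deriv hc hne
  have h1 : HasDerivAt (XX P Q H G (τ c) (J + 1)) _ 0 :=
    E1_orbit (H := H) (G := G) (F.τ0 c hc) (hτd c hc) hc.1 (O.qorb hc) hd J
  have h5 := O.qorb hc' 0
  rw [Function.iterate_zero_apply] at h5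
  have h0 : HasDerivAt (XX P Q H G (τ c') 1) _ 0 :=
    E1x.step P Q H G (hτd c' hc') (F.τ0 c' hc') h5
  have h2 : HasDerivAt (fun t => XX P Q H G (τ c) (J + 1) t - XX P Q H G (τ c') 1 t) _ 0 :=
    h1.sub h0
  rw [h2.deriv]
  unfold ellM
  rw [LinearMap.sub_apply, LinearMap.smul_apply, leval_apply, smul_eq_mul,
    ell_eq hc.1 (fun j _ => O.qorb hc j) (fun j _ => hne j), hc'.1, mul_sub, zero_div, zero_mul,
    add_zero]
  congr 1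
  have h4 := hd J
  field_simp

theorem ell_bound1 (O : Ma A d P Q U U₁) {H G : ℂ[X]} {r : ℝ} {τ : ℂ → ℂ → ℂ}
    (F : Fm A P Q U U₁ H G r τ) {R : ℝ} (hR : 0 < R)
    (hUR : ∀ z ∈ U, ‖z‖ ≤ R) :
    ∃ C : ℝ, 0 ≤ C ∧ ∀ c ∈ Fa A P Q, ∀ c' ∈ Fa A P Q,
      (∀ j, (wr P Q).eval ((rf P Q)^[j] (rf P Q c)) ≠ 0) → ∀ J,
      ‖deriv ((rf P Q)^[J]) (rf P Q c)‖ * ‖ellM P Q c c' J (H * Q - P * G)‖ ≤ C ∧
      (Lv P Q U (rf P Q c') →
        ‖deriv ((rf P Q)^[J]) (rf P Q c)‖ * ‖ellM P Q c c' J (H * Q - P * G)‖ ≤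
        C * lm R ‖(rf P Q)^[J] (rf P Q c) - rf P Q c'‖) := by
  have hr := F.hr
  have h0 : rf (P + C (0 : ℂ) * H) (Q + C (0 : ℂ) * G) = rf P Q := by simp
  refine ⟨2 * R / (r / 2) + 4 / r, by positivity, fun c hc c' hc' hne J => ?_⟩
  have hvU : rf P Q c' ∈ U := O.s (subset_closure (O.n _ (O.nv hc' 0)))
  have e := F.deriv_eq O hc hc' hne J
  have h1 := F.one O hc hc' hUR J
  have hX : XX P Q H G (τ c) (J + 1) 0 = (rf P Q)^[J] (rf P Q c) := by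
    unfold XX
    rw [h0, F.τ0 c hc, Function.iterate_succ_apply]
  have hJU : (rf P Q)^[J] (rf P Q c) ∈ U := O.s (subset_closure (O.n _ (O.nv hc J)))
  have hq : 0 ≤ lm R ‖(rf P Q)^[J] (rf P Q c) - rf P Q c'‖ := by
    apply lm_nonneg hR (norm_nonneg _)
    have h3 := norm_sub_le ((rf P Q)^[J] (rf P Q c)) (rf P Q c')
    have h4 := hUR _ hJU
    have h5 := hUR _ hvU
    linarith
  refine ⟨?_, fun hleave => ?_⟩
  · rw [e, norm_mul] at h1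
    refine h1.trans ?_
    have : 0 < 4 / r := by positivity
    linarith
  · have h2 := F.two O hc hc' hleave hR hUR J
    rw [e, norm_mul, hX] at h2
    refine h2.trans ?_
    change 4 / r * lm R ‖(rf P Q)^[J] (rf P Q c) - rf P Q c'‖ ≤ _
    gcongr
    have : 0 ≤ 2 * R / (r / 2) := by positivity
    linarith

theorem ell_bound (O : Ma A d P Q U U₁) {D : ℕ} (hna : Dir A d D P Q U U₁) {R : ℝ} (hR : 0 < R)
    (hUR : ∀ z ∈ U, ‖z‖ ≤ R) :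
    ∃ C : ℝ, 0 ≤ C ∧ ∀ c ∈ Fa A P Q, ∀ c' ∈ Fa A P Q,
      (∀ j, (wr P Q).eval ((rf P Q)^[j] (rf P Q c)) ≠ 0) → ∀ J, ∀ k ≤ D,
      ‖deriv ((rf P Q)^[J]) (rf P Q c)‖ * ‖ellM P Q c c' J (X ^ k)‖ ≤ C ∧
      (Lv P Q U (rf P Q c') → ‖deriv ((rf P Q)^[J]) (rf P Q c)‖ * ‖ellM P Q c c' J (X ^ k)‖ ≤
        C * lm R ‖(rf P Q)^[J] (rf P Q c) - rf P Q c'‖) := by
  have key : ∀ k ≤ D, ∃ C : ℝ, 0 ≤ C ∧ ∀ c ∈ Fa A P Q, ∀ c' ∈ Fa A P Q,
      (∀ j, (wr P Q).eval ((rf P Q)^[j] (rf P Q c)) ≠ 0) → ∀ J,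
      ‖deriv ((rf P Q)^[J]) (rf P Q c)‖ * ‖ellM P Q c c' J (X ^ k)‖ ≤ C ∧
      (Lv P Q U (rf P Q c') → ‖deriv ((rf P Q)^[J]) (rf P Q c)‖ * ‖ellM P Q c c' J (X ^ k)‖ ≤
        C * lm R ‖(rf P Q)^[J] (rf P Q c) - rf P Q c'‖) := by
    intro k hk
    obtain ⟨H, G, r, τ, hHG, F⟩ := hna.fam k hk
    have h1 := ell_bound1 O F hR hUR
    rwa [hHG] at h1
  choose! Cc hC0 hC using key
  have hs : ∀ k ≤ D, Cc k ≤ ∑ k ∈ Finset.range (D + 1), Cc k := by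
    intro k hk
    exact Finset.single_le_sum (f := Cc)
      (fun i hi => hC0 i (by rw [Finset.mem_range] at hi; omega)) (Finset.mem_range.2 (by omega))
  refine ⟨∑ k ∈ Finset.range (D + 1), Cc k, Finset.sum_nonneg fun i hi =>
    hC0 i (by rw [Finset.mem_range] at hi; omega), fun c hc c' hc' hne J k hk => ?_⟩
  have hvU : rf P Q c' ∈ U := O.s (subset_closure (O.n _ (O.nv hc' 0)))
  have h1 := hC k hk c hc c' hc' hne J
  refine ⟨h1.1.trans (hs k hk), fun hl => (h1.2 hl).trans ?_⟩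
  have hJU : (rf P Q)^[J] (rf P Q c) ∈ U := O.s (subset_closure (O.n _ (O.nv hc J)))
  have hq : 0 ≤ lm R ‖(rf P Q)^[J] (rf P Q c) - rf P Q c'‖ := by
    apply lm_nonneg hR (norm_nonneg _)
    have h3 := norm_sub_le ((rf P Q)^[J] (rf P Q c)) (rf P Q c')
    have h4 := hUR _ hJU
    have h5 := hUR _ hvU
    linarith
  have h6 := hs k hk
  gcongr

end Pool.Agent.Zk29.Po
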