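import Pool.Agent.Zk29.Po.F3
import Pool.Agent.Zk29.Mu.M2
import Pool.Agent.Zk29.Hy.B7

/-!
# The closing inequality
-/

set_option autoImplicit false
open Set Filter Topology Metric Polynomial MeasureTheory
open scoped OnePoint ENNReal

namespace Pool.Agent.Zk29.Po

open Pool.Agent.Zk29.Mu (Clm Sysm)

open Pool.Agent.H792R2.CE Pool.Agent.H792R2.CE.C2x Pool.Agent.Zk29.Rat
open Pool.Agent.Zk29.Hy (XX NN lm lm_nonneg EE)
open Pool.Agent.Helper114.Herman Pool.Agent.Zk29.Ab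

variable {A : ℂ → Prop} {d : ℕ} {P Q : ℂ[X]} {c c' : ℂ} {U U₁ : Set ℂ}

/-- The Cauchy kernels of the closed orbit. -/
theorem ellM_push (D : Dat P Q d) {J : ℕ}
    (Ob : Orb P Q c (fun j => (rf P Q)^[j] (rf P Q c))
      (fun j => (deriv ((rf P Q)^[j]) (rf P Q c))⁻¹) J)
    (hq' : Q.eval c' ≠ 0) (hw' : (wr P Q).eval c' = 0) :
    ∀ᵐ x : ℂ, push P Q (QQ J (fun j => (rf P Q)^[j] (rf P Q c))
        (fun j => (deriv ((rf P Q)^[j]) (rf P Q c))⁻¹)) x -
      QQ J (fun j => (rf P Q)^[j] (rf P Q c))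
        (fun j => (deriv ((rf P Q)^[j]) (rf P Q c))⁻¹) x = ellM P Q c c' J (SP P Q d x) +
        (deriv ((rf P Q)^[J]) (rf P Q c))⁻¹ *
          (1 / (x - (rf P Q)^[J] (rf P Q c)) - 1 / (x - rf P Q c')) := by
  classical
  have h1 : ∀ᵐ x : ℂ, ∀ j, x ≠ (rf P Q)^[j] (rf P Q c) := by
    rw [ae_all_iff]
    intro j
    rw [ae_iff]
    simp
  have h1' : ∀ᵐ x : ℂ, x ≠ rf P Q c' := by
    rw [ae_iff]
    simp
  filter_upwards [gen_ae D, h1, h1'] with x hx hxa h4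
  rw [push_orb D Ob hx hxa]
  have h2 := SP_crit D hx hq' hw' h4
  have h6 : x - rf P Q c' ≠ 0 := sub_ne_zero.2 h4
  have h7 : x - (rf P Q)^[J] (rf P Q c) ≠ 0 := sub_ne_zero.2 (hxa J)
  unfold ellM
  rw [LinearMap.sub_apply, LinearMap.smul_apply, leval_apply, smul_eq_mul, h2]
  obtain ⟨β, hβ⟩ : ∃ β, (deriv ((rf P Q)^[J]) (rf P Q c))⁻¹ = β := ⟨_, rfl⟩
  simp only [hβ]
  field_simp
  ring

/-- The functional on the polynomials of degree at most `D`. -/
noncomputable def cut (D : ℕ) (L : ℂ[X] →ₗ[ℂ] ℂ) : ℂ[X] →ₗ[ℂ] ℂ :=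
  ∑ k ∈ Finset.range (D + 1), (L (X ^ k)) • (Polynomial.lcoeff ℂ k)

lemma cut_apply (D : ℕ) (L : ℂ[X] →ₗ[ℂ] ℂ) (p : ℂ[X]) :
    cut D L p = ∑ k ∈ Finset.range (D + 1), L (X ^ k) * p.coeff k := by
  unfold cut
  rw [LinearMap.sum_apply]
  refine Finset.sum_congr rfl fun k _ => ?_
  rw [LinearMap.smul_apply, smul_eq_mul, Polynomial.lcoeff_apply]

lemma cut_eq {D : ℕ} (L : ℂ[X] →ₗ[ℂ] ℂ) {p : ℂ[X]} (hp : p.natDegree ≤ D) : cut D L p = L p := by
  rw [cut_apply]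
  conv_rhs => rw [p.as_sum_range' (D + 1) (by omega)]
  rw [map_sum]
  refine Finset.sum_congr rfl fun k _ => ?_
  rw [← C_mul_X_pow_eq_monomial, ← smul_eq_C_mul, LinearMap.map_smul, smul_eq_mul, mul_comm]

lemma cut_X {D : ℕ} (L : ℂ[X] →ₗ[ℂ] ℂ) (k : ℕ) :
    cut D L (X ^ k) = if k ≤ D then L (X ^ k) else 0 := by
  split_ifs with h
  · exact cut_eq L (by rw [natDegree_X_pow]; exact h)
  · rw [cut_apply]
    apply Finset.sum_eq_zero
    intro i hi
    rw [Finset.mem_range] at hi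
    rw [coeff_X_pow, if_neg (by omega), mul_zero]

theorem closing (O : Ma A d P Q U U₁) {D₀ : ℕ} (hsp : ∀ᵐ x : ℂ, (SP P Q d x).natDegree ≤ D₀)
    (hc : c ∈ Fa A P Q)
    (hne : ∀ j, (wr P Q).eval ((rf P Q)^[j] (rf P Q c)) ≠ 0) :
    ∃ A₀ : ℝ, 1 ≤ A₀ ∧ ∀ c' ∈ Fa A P Q, ∀ (J M : ℕ) (y : ℂ) (δ W : ℝ), 1 ≤ J → 1 ≤ M →
      y ∉ UR P Q U M → 0 < δ → δ ≤ 1 →
      (∀ i, 1 ≤ i → i < J → δ ≤ ‖(rf P Q)^[i] (rf P Q c) - rf P Q c‖) → 1 ≤ W →
      ∑ i ∈ Finset.range J, ‖deriv ((rf P Q)^[i]) (rf P Q c)‖⁻¹ ≤ Real.exp W →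
      A₀ * W ^ A₀ * ‖y - rf P Q c‖ ≤ δ → ∀ κ₀ ω : ℝ, 0 ≤ κ₀ → 0 ≤ ω →
      (∀ k ≤ D₀, ‖ellM P Q c c' J (X ^ k)‖ ≤ κ₀) →
      ∫⁻ x in U, ‖1 / (x - (rf P Q)^[J] (rf P Q c)) - 1 / (x - rf P Q c')‖ₑ ≤
        ENNReal.ofReal ω →
      δ ≤ A₀ * W ^ A₀ * (M : ℝ) ^ 2 * (κ₀ + ‖deriv ((rf P Q)^[J]) (rf P Q c)‖⁻¹ * ω) := by
  classical
  have T := O.trap
  have D : Dat P Q d := O.dat
  obtain ⟨A₀, hA1, hA⟩ := Nl.mass_tst2 T D
  refine ⟨A₀, hA1, ?_⟩
  intro c' hc' J M y δ W hJ hM hy hδ hδ1 hsep hW hWs hyv κ₀ ω hκ₀ hω hk hint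
  have hKv : ∀ j, (rf P Q)^[j] (rf P Q c) ∈ KR P Q U := fun j => O.kr (O.nv hc j)
  have Ob : Orb P Q c (fun j => (rf P Q)^[j] (rf P Q c))
      (fun j => (deriv ((rf P Q)^[j]) (rf P Q c))⁻¹) J :=
    Orb.of hc.1 (fun j _ => O.qorb hc j) (fun j _ => hne j)
  have hq' := O.qorb hc' 0
  rw [Function.iterate_zero_apply] at hq'
  have hW0 : 0 < W := by linarith
  have hM1 : (1 : ℝ) ≤ M := by exact_mod_cast hM
  have hB : 0 < A₀ * W ^ A₀ * (M : ℝ) ^ 2 := by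
    have := Real.rpow_pos_of_pos hW0 A₀
    positivity
  obtain ⟨B, hBe⟩ : ∃ B, B = A₀ * W ^ A₀ * (M : ℝ) ^ 2 := ⟨_, rfl⟩
  rw [← hBe] at hB ⊢
  apply le_of_forall_pos_le_add
  intro ε hε
  have key := hA Unit (fun _ j => (rf P Q)^[j] (rf P Q c))
    (fun _ j => (deriv ((rf P Q)^[j]) (rf P Q c))⁻¹) (fun _ => J) (fun _ => cut D₀ (ellM P Q c c' J))
    (fun _ x => (deriv ((rf P Q)^[J]) (rf P Q c))⁻¹ *
          (1 / (x - (rf P Q)^[J] (rf P Q c)) - 1 / (x - rf P Q c')))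
    (fun _ => ‖deriv ((rf P Q)^[J]) (rf P Q c)‖⁻¹ * ω)
    (fun _ => by
      filter_upwards [ellM_push D Ob hq' hc'.1, hsp] with x h1 h2
      rw [cut_eq _ h2]
      exact h1)
    (fun _ => by
      apply Measurable.const_mul
      exact (measurable_const.div (measurable_id.sub_const _)).sub
        (measurable_const.div (measurable_id.sub_const _)))
    (fun _ => by positivity)
    (fun _ => by
      simp_rw [enorm_mul]
      rw [lintegral_const_mul' _ _ enorm_ne_top, ENNReal.ofReal_mul (by positivity), ← norm_inv,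
        ofReal_norm]
      gcongr)
    (fun _ j _ => Or.inl (hKv j))
    (fun _ => 1) () hJ rfl (by
      change (deriv ((rf P Q)^[0]) (rf P Q c))⁻¹ = 1
      rw [Function.iterate_zero, deriv_id, inv_one]) (hKv 0) W hW
    (by
      rw [Fintype.sum_unique]
      refine le_trans (le_of_eq ?_) hWs
      refine Finset.sum_congr rfl fun j _ => ?_
      rw [one_mul, norm_inv])
    (cut D₀ (ellM P Q c c' J)) (κ₀ + ε / B) (by positivity)
    (Eventually.of_forall fun x => by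
      rw [Fintype.sum_unique, one_mul])
    (fun k _ => by
      have h0 : 0 < ε / B := by positivity
      rw [cut_X]
      split_ifs with hk'
      · exact (hk k hk').trans (by linarith)
      · rw [norm_zero]
        positivity) δ hδ hδ1
    (fun _ j hj h => by
      have hj0 : j ≠ 0 := by
        rcases h with h | h
        · exact absurd rfl h
        · exact h
      exact hsep j (by omega) hj) M hM (by
      refine le_trans ?_ hyv
      have : 0 ≤ A₀ * W ^ A₀ := by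
        have := Real.rpow_pos_of_pos hW0 A₀
        positivity
      gcongr
      exact dg_le hy)
  rw [Fintype.sum_unique, norm_one, one_mul, ← hBe] at key
  refine key.trans (le_of_eq ?_)
  field_simp
  ring

lemma Ma.DD_eq (O : Ma A d P Q U U₁) (hc : c ∈ Fa A P Q) (j : ℕ) :
    DD (EE P Q c) j = ‖deriv ((rf P Q)^[j]) (rf P Q c)‖ := by
  induction j with
  | zero => rw [DD_zero, Function.iterate_zero, deriv_id, norm_one]
  | succ j ih =>
    rw [DD_succ, rf_iter_deriv_succ j fun i _ => O.qv hc i, norm_mul, ih, mul_comm]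
    rfl

/-- The free critical values in the boundary. -/
def VV (A : ℂ → Prop) (P Q : ℂ[X]) (U : Set ℂ) : Set ℂ :=
  {u | ∃ c' ∈ Fa A P Q, u = rf P Q c' ∧ Lv P Q U u}

/-- The closing inequalities. -/
theorem cl_mu (O : Ma A d P Q U U₁) {D₀ : ℕ} (hna : Dir A d D₀ P Q U U₁) (hc : c ∈ Fa A P Q)
    (hne : ∀ j, (wr P Q).eval ((rf P Q)^[j] (rf P Q c)) ≠ 0) {R : ℝ} (hR : 0 < R)
    (hUR : U ⊆ ball 0 R) :
    ∃ A₀ : ℝ, 1 ≤ A₀ ∧ Clm (rf P Q) (rf P Q c) (VV A P Q U) (EE P Q c)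
      (fun y M => y ∉ UR P Q U M) A₀ (2 + Real.log (4 * R)) := by
  have hUR' : ∀ z ∈ U, ‖z‖ ≤ R := fun z hz => (mem_ball_zero_iff.1 (hUR hz)).le
  obtain ⟨C, hC0, hC⟩ := ell_bound O hna hR hUR'
  obtain ⟨A₀, hA1, hA⟩ := closing O hna.sp hc hne
  obtain ⟨Cp, hCp0, hCp⟩ := lintegral_pole O.trap
  obtain ⟨A', hA'⟩ : ∃ A' : ℝ, A' = A₀ * (C + 2 * Cp + 8) := ⟨_, rfl⟩
  have hAA' : A₀ ≤ A' := by
    rw [hA']
    exact le_mul_of_one_le_right (by linarith) (by linarith)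
  have hA'1 : 1 ≤ A' := hA1.trans hAA'
  have hball : ∀ j, ‖(rf P Q)^[j] (rf P Q c)‖ ≤ R := fun j =>
    hUR' _ (O.s (subset_closure (O.n _ (O.nv hc j))))
  refine ⟨A', hA'1, ⟨?_, ?_⟩⟩
  · intro J M y δ W hJ hM hy hδ hδ1 hsep hW hWs hyv
    have hWA : W ^ A₀ ≤ W ^ A' := Real.rpow_le_rpow_of_exponent_le hW hAA'
    have hWA0 : 0 < W ^ A₀ := Real.rpow_pos_of_pos (by linarith) A₀
    obtain ⟨D, hDe⟩ : ∃ D, D = ‖deriv ((rf P Q)^[J]) (rf P Q c)‖ := ⟨_, rfl⟩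
    have hD0 : 0 < D := by
      rw [hDe]
      exact norm_pos_iff.2 (O.ne_deriv hc hne J)
    rw [O.DD_eq hc, ← hDe]
    simp_rw [O.DD_eq hc] at hWs
    have h1 := hA c hc J M y δ W hJ hM hy hδ hδ1 hsep hW hWs (by
        refine le_trans ?_ hyv
        gcongr) (D⁻¹ * C) (2 * Cp) (by positivity) (by positivity)
      (fun k hk => by
        have := (hC c hc c hc hne J k hk).1
        rw [← hDe] at this
        rw [inv_mul_eq_div, le_div_iff₀ hD0, mul_comm]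
        exact this)
      (by
        calc ∫⁻ x in U, ‖1 / (x - (rf P Q)^[J] (rf P Q c)) - 1 / (x - rf P Q c)‖ₑ
            ≤ ∫⁻ x in U, (‖1 / (x - (rf P Q)^[J] (rf P Q c))‖ₑ +
              ‖1 / (x - rf P Q c)‖ₑ) := lintegral_mono fun x => enorm_sub_le
          _ = (∫⁻ x in U, ‖1 / (x - (rf P Q)^[J] (rf P Q c))‖ₑ) +
              ∫⁻ x in U, ‖1 / (x - rf P Q c)‖ₑ :=
            lintegral_add_right _
              (measurable_const.div (measurable_id.sub_const _)).enorm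
          _ ≤ ENNReal.ofReal (Cp * ‖(1 : ℂ)‖) + ENNReal.ofReal (Cp * ‖(1 : ℂ)‖) :=
            add_le_add (hCp 1 _) (hCp 1 _)
          _ = ENNReal.ofReal (2 * Cp) := by
            rw [← ENNReal.ofReal_add (by positivity) (by positivity), norm_one]
            congr 1
            ring)
    rw [← hDe] at h1
    have h2 : D * δ ≤ D * (A₀ * W ^ A₀ * (M : ℝ) ^ 2 * (D⁻¹ * C + D⁻¹ * (2 * Cp))) := by gcongr
    refine h2.trans ?_
    have h3 : D * (A₀ * W ^ A₀ * (M : ℝ) ^ 2 * (D⁻¹ * C + D⁻¹ * (2 * Cp))) =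
        A₀ * (C + 2 * Cp) * W ^ A₀ * (M : ℝ) ^ 2 := by
      field_simp
    rw [h3]
    have h4 : A₀ * (C + 2 * Cp) ≤ A' := by
      rw [hA']
      exact mul_le_mul_of_nonneg_left (by linarith) (by linarith)
    gcongr
  · rintro u ⟨c', hc', hu, hlv⟩ J M y δ W hJ hM hy hδ hδ1 hsep hW hWs hyv
    have hball0 : ‖u‖ ≤ R := by
      rw [hu]
      exact hUR' _ (O.s (subset_closure (O.n _ (O.nv hc' 0))))
    have hWA : W ^ A₀ ≤ W ^ A' := Real.rpow_le_rpow_of_exponent_le hW hAA'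
    have hWA0 : 0 < W ^ A₀ := Real.rpow_pos_of_pos (by linarith) A₀
    obtain ⟨D, hDe⟩ : ∃ D, D = ‖deriv ((rf P Q)^[J]) (rf P Q c)‖ := ⟨_, rfl⟩
    have hD0 : 0 < D := by
      rw [hDe]
      exact norm_pos_iff.2 (O.ne_deriv hc hne J)
    rw [O.DD_eq hc, ← hDe]
    simp_rw [O.DD_eq hc] at hWs
    have hA2 := hA c' hc' J M y δ W hJ hM hy hδ hδ1 hsep hW hWs (by
          refine le_trans ?_ hyv
          gcongr)
    have hC2 : ∀ k ≤ D₀, D * ‖ellM P Q c c' J (X ^ k)‖ ≤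
        C * lm R ‖(rf P Q)^[J] (rf P Q c) - u‖ := by
      intro k hk
      have := (hC c hc c' hc' hne J k hk).2 (by rw [← hu]; exact hlv)
      rwa [← hDe, ← hu] at this
    rw [← hu] at hA2
    by_cases hz : (rf P Q)^[J] (rf P Q c) = u
    · have h1 := hA2 0 0 le_rfl le_rfl
        (fun k hk => by
          have := hC2 k hk
          rw [hz, sub_self, norm_zero] at this
          unfold lm at this
          rw [zero_mul, mul_zero] at this
          by_contra hcon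
          push Not at hcon
          have : 0 < D * ‖ellM P Q c c' J (X ^ k)‖ := mul_pos hD0 hcon
          linarith)
        (by
          rw [hz]
          simp)
      rw [mul_zero, add_zero, mul_zero] at h1
      linarith
    · have hρ : 0 < ‖(rf P Q)^[J] (rf P Q c) - u‖ := norm_pos_iff.2 (sub_ne_zero.2 hz)
      have hρ2 : ‖(rf P Q)^[J] (rf P Q c) - u‖ ≤ 2 * R := by
        have := norm_sub_le ((rf P Q)^[J] (rf P Q c)) u
        have := hball J
        linarith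
      have htp := Nl.two_poles_gen hR (hball J) hball0 hz
      rw [Nl.log_form hR hρ] at htp
      obtain ⟨ρ, hρe⟩ : ∃ ρ, ρ = ‖(rf P Q)^[J] (rf P Q c) - u‖ := ⟨_, rfl⟩
      rw [← hρe] at hρ hρ2 htp hC2 ⊢
      obtain ⟨q, hq⟩ : ∃ q, q = ρ * (2 + Real.log (4 * R) - Real.log ρ) := ⟨_, rfl⟩
      rw [← hq] at htp ⊢
      have hlog0 : 0 ≤ Real.log (4 * R / ρ) := by
        apply Real.log_nonneg
        rw [le_div_iff₀ hρ]
        linarith
      have hq0 : 0 ≤ q := by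
        rw [hq, ← Nl.log_form hR hρ]
        positivity
      have hlq : lm R ρ ≤ q := by
        rw [hq, ← Nl.log_form hR hρ]
        unfold lm
        gcongr
        linarith
      have hpi := Real.pi_gt_three
      have hpi4 := Real.pi_le_four
      have h1 := hA2 (D⁻¹ * (C * q)) (2 * Real.pi * q) (by positivity) (by positivity)
        (fun k hk => by
          have := hC2 k hk
          rw [inv_mul_eq_div, le_div_iff₀ hD0, mul_comm]
          refine this.trans ?_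
          gcongr)
        ((lintegral_mono_set hUR).trans (htp.trans (le_of_eq (by rw [hq]))))
      rw [← hDe] at h1
      have h2 : D * δ ≤ D * (A₀ * W ^ A₀ * (M : ℝ) ^ 2 * (D⁻¹ * (C * q) +
          D⁻¹ * (2 * Real.pi * q))) := by gcongr
      refine h2.trans ?_
      have h3 : D * (A₀ * W ^ A₀ * (M : ℝ) ^ 2 * (D⁻¹ * (C * q) + D⁻¹ * (2 * Real.pi * q))) =
          A₀ * (C + 2 * Real.pi) * W ^ A₀ * (M : ℝ) ^ 2 * q := by
        field_simp
      rw [h3]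
      have h4 : A₀ * (C + 2 * Real.pi) ≤ A' := by
        rw [hA']
        exact mul_le_mul_of_nonneg_left (by linarith) (by linarith)
      gcongr

end Pool.Agent.Zk29.Po
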