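import Pool.Agent.Zk29.Po.F4
import Pool.Agent.Zk29.Hy.B9

/-!
# The free critical orbits as systems
-/

set_option autoImplicit false
open Set Filter Topology Metric Polynomial MeasureTheory
open scoped OnePoint ENNReal

namespace Pool.Agent.Zk29.Po

open Pool.Agent.Zk29.Mu (Clm Sysm quasi)
open Pool.Agent.H792R2.CE Pool.Agent.H792R2.CE.C2x Pool.Agent.Zk29.Rat
open Pool.Agent.Zk29.Hy (XX NN lm lm_nonneg EE Zq Zq_fin poly_low rf_continuousAt One.cauchy)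
open Pool.Agent.Helper114.Herman Pool.Agent.Zk29.Ab

variable {A : ℂ → Prop} {d : ℕ} {P Q : ℂ[X]} {c c' : ℂ} {U U₁ : Set ℂ}

lemma Ma.Q0 (O : Ma A d P Q U U₁) : Q ≠ 0 := O.dat.q0

lemma Ma.Zpos (O : Ma A d P Q U U₁) (hc : c ∈ Fa A P Q) {z : ℂ} (hz : z ∉ Zq P Q) :
    0 < infDist z (Zq P Q) :=
  ((Zq_fin (O.N0) O.Q0).isClosed.notMem_iff_infDist_pos
    ⟨c, Or.inl hc.1⟩).1 hz

/-- The distortion near a point which is neither critical nor a pole. -/
lemma lin_mu (O : Ma A d P Q U U₁) (hc : c ∈ Fa A P Q) {z w : ℂ} (hz : z ∉ Zq P Q) {κ : ℝ}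
    (hκ : 2 ^ ((wr P Q).natDegree + 4 * Q.natDegree) ≤ κ) (hκ2 : 2 ≤ κ)
    (hw : κ * ‖w - z‖ ≤ infDist z (Zq P Q)) :
    ‖rf P Q w - rf P Q z‖ ≤ ‖(wr P Q).eval z / Q.eval z ^ 2‖ * ‖w - z‖ *
      (1 + κ * ‖w - z‖ / infDist z (Zq P Q)) := by
  have hd0 : 0 < d := by have := O.d2; omega
  have hθ := O.Zpos hc hz
  obtain ⟨θ, hθe⟩ : ∃ θ, θ = infDist z (Zq P Q) := ⟨_, rfl⟩
  rw [← hθe] at hθ hw ⊢
  have hQz : Q.eval z ≠ 0 := fun h => hz (Or.inr h)
  have hroot1 : ∀ c ∈ (wr P Q).roots, θ ≤ ‖z - c‖ := by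
    intro c' hc'
    have h1 : c' ∈ Zq P Q := Or.inl ((mem_roots (O.N0)).1 hc')
    rw [hθe, ← dist_eq_norm]
    exact infDist_le_dist_of_mem h1
  have hroot2 : ∀ c ∈ Q.roots, θ ≤ ‖z - c‖ := by
    intro c' hc'
    have h1 : c' ∈ Zq P Q := Or.inr ((mem_roots O.Q0).1 hc')
    rw [hθe, ← dist_eq_norm]
    exact infDist_le_dist_of_mem h1
  obtain ⟨s, hs⟩ : ∃ s, s = ‖w - z‖ / θ := ⟨_, rfl⟩
  have hs0 : 0 ≤ s := by rw [hs]; positivity
  have hκs : κ * s ≤ 1 := by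
    rw [hs, mul_div_assoc', div_le_one hθ]
    exact hw
  have hs2 : s ≤ 1 / 2 := by nlinarith
  have hwz : ‖w - z‖ = s * θ := by rw [hs]; field_simp
  have hder : ∀ u ∈ segment ℝ z w, DifferentiableAt ℂ (rf P Q) u ∧ ‖deriv (rf P Q) u‖ ≤
      ‖(wr P Q).eval z / Q.eval z ^ 2‖ * (1 + κ * ‖w - z‖ / θ) := by
    intro u hu
    have h1 : ‖u - z‖ ≤ ‖w - z‖ := by
      have h2 : u ∈ closedBall z ‖w - z‖ := by
        apply (convex_closedBall z ‖w - z‖).segment_subset _ _ hu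
        · exact mem_closedBall_self (norm_nonneg _)
        · rw [mem_closedBall, dist_eq_norm]
      rwa [mem_closedBall, dist_eq_norm] at h2
    have hus : ‖u - z‖ / θ ≤ s := by rw [hs]; gcongr
    have hu2 : ‖u - z‖ ≤ θ / 2 := by
      rw [hwz] at h1
      nlinarith
    have e1 := Nl.poly_growth (wr P Q) hθ hroot1 u
    have e2 := poly_low Q hθ hroot2 hu2
    have e1' : ‖(wr P Q).eval u‖ ≤ ‖(wr P Q).eval z‖ * (1 + s) ^ (wr P Q).natDegree :=
      e1.trans (by gcongr)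
    have e2' : ‖Q.eval z‖ ≤ ‖Q.eval u‖ * (1 + s) ^ (2 * Q.natDegree) := e2.trans (by gcongr)
    have hQz0 : 0 < ‖Q.eval z‖ := norm_pos_iff.2 hQz
    have hQu : Q.eval u ≠ 0 := by
      intro h0
      rw [h0, norm_zero, zero_mul] at e2'
      linarith
    have hQu0 : 0 < ‖Q.eval u‖ := norm_pos_iff.2 hQu
    refine ⟨(rf_hasDerivAt hQu).differentiableAt, ?_⟩
    rw [(rf_hasDerivAt hQu).deriv, norm_div, norm_div, norm_pow, norm_pow]
    have h5 : (1 + s) ^ ((wr P Q).natDegree + 4 * Q.natDegree) ≤ 1 + κ * ‖w - z‖ / θ := by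
      calc (1 + s) ^ ((wr P Q).natDegree + 4 * Q.natDegree)
          ≤ 1 + (2 ^ ((wr P Q).natDegree + 4 * Q.natDegree) - 1) * s :=
            Nl.pow_one_add_le hs0 (by linarith) _
        _ ≤ 1 + κ * s := by
            gcongr
            linarith
        _ = _ := by rw [hs]; ring
    have h6 : ‖Q.eval z‖ ^ 2 ≤ ‖Q.eval u‖ ^ 2 * (1 + s) ^ (4 * Q.natDegree) := by
      calc ‖Q.eval z‖ ^ 2 ≤ (‖Q.eval u‖ * (1 + s) ^ (2 * Q.natDegree)) ^ 2 := by gcongr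
        _ = _ := by rw [mul_pow, ← pow_mul]; congr 2; ring
    refine le_trans ?_ (mul_le_mul_of_nonneg_left h5 (by positivity))
    rw [div_le_iff₀ (by positivity), pow_add]
    calc ‖(wr P Q).eval u‖ ≤ ‖(wr P Q).eval z‖ * (1 + s) ^ (wr P Q).natDegree := e1'
      _ = ‖(wr P Q).eval z‖ / ‖Q.eval z‖ ^ 2 * (1 + s) ^ (wr P Q).natDegree *
          ‖Q.eval z‖ ^ 2 := by field_simp
      _ ≤ ‖(wr P Q).eval z‖ / ‖Q.eval z‖ ^ 2 * (1 + s) ^ (wr P Q).natDegree *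
          (‖Q.eval u‖ ^ 2 * (1 + s) ^ (4 * Q.natDegree)) := by gcongr
      _ = _ := by ring
  have h1 := (convex_segment z w).norm_image_sub_le_of_norm_deriv_le
    (f := rf P Q) (fun u hu => (hder u hu).1) (fun u hu => (hder u hu).2)
    (left_mem_segment ℝ z w) (right_mem_segment ℝ z w)
  calc ‖rf P Q w - rf P Q z‖ ≤ _ := h1
    _ = _ := by ring

/-- Near the free critical point. -/
lemma Ma.near (O : Ma A d P Q U U₁) (hc : c ∈ Fa A P Q) : ∃ g h : ℂ[X], wr P Q = (X - C c) * g ∧ g.eval c ≠ 0 ∧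
    P - C (rf P Q c) * Q = (X - C c) ^ 2 * h := by
  have hd0 : 0 < d := by have := O.d2; omega
  have hQc : Q.eval c ≠ 0 := O.qorb hc 0
  obtain ⟨g, hg1, hg2⟩ := exists_eq_pow_rootMultiplicity_mul_and_not_dvd _ (O.N0) c
  rw [O.mul hc, pow_one] at hg1
  have hPc : P.eval c = rf P Q c * Q.eval c := by
    unfold rf
    field_simp
  obtain ⟨h₁, hh₁⟩ : (X - C c) ∣ P - C (rf P Q c) * Q := by
    rw [dvd_iff_isRoot, IsRoot.def]
    simp [hPc]
  have h0 : h₁.eval c = 0 := by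
    have h2 := congrArg (fun p => (derivative p).eval c) hh₁
    simp only [derivative_sub, derivative_mul, derivative_C, zero_mul, zero_add,
      Polynomial.eval_sub, Polynomial.eval_mul, Polynomial.eval_add, Polynomial.eval_C,
      derivative_X, Polynomial.eval_X, sub_self, sub_zero, one_mul,
      add_zero] at h2
    have h3 := hc.1
    simp only [wr, Polynomial.eval_sub, Polynomial.eval_mul] at h3
    rw [← h2]
    have h4 : Q.eval c * ((derivative P).eval c - rf P Q c * (derivative Q).eval c) = 0 := by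
      rw [hPc] at h3
      linear_combination h3
    rcases mul_eq_zero.1 h4 with h | h
    · exact absurd h hQc
    · exact h
  obtain ⟨h, hh⟩ := dvd_iff_isRoot.2 h0
  refine ⟨g, h, hg1, fun h0 => hg2 (dvd_iff_isRoot.2 h0), ?_⟩
  rw [hh₁, hh]
  ring

lemma Ma.hdist (O : Ma A d P Q U U₁) (hc : c ∈ Fa A P Q) : ∀ᶠ z in 𝓝 c, ‖z - c‖ ≤ infDist z (Zq P Q) := by
  have hd0 : 0 < d := by have := O.d2; omega
  have hfin : ((Zq P Q) \ {c}).Finite := (Zq_fin (O.N0) O.Q0).subset sdiff_subset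
  have h1 : ∀ᶠ z in 𝓝 c, ∀ c' ∈ (Zq P Q) \ {c}, ‖z - c‖ ≤ ‖z - c'‖ := by
    rw [eventually_all_finite hfin]
    intro c' hc'
    have h2 : 0 < ‖c - c'‖ := by
      rw [norm_pos_iff, sub_ne_zero]
      exact fun h => hc'.2 h.symm
    have h3 : ContinuousAt (fun z : ℂ => ‖z - c'‖ - ‖z - c‖) c := by fun_prop
    have h4 : ∀ᶠ z in 𝓝 c, 0 < ‖z - c'‖ - ‖z - c‖ := by
      apply h3.eventually_const_lt
      change 0 < ‖c - c'‖ - ‖c - c‖
      rw [sub_self, norm_zero, sub_zero]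
      exact h2
    filter_upwards [h4] with z hz
    linarith
  filter_upwards [h1] with z hz
  rw [le_infDist ⟨c, (Or.inl hc.1 : c ∈ Zq P Q)⟩]
  intro y hy
  rw [dist_eq_norm]
  by_cases hyz : y = c
  · rw [hyz]
  · exact hz y ⟨hy, hyz⟩

/-- The boundary points of the set of points which never leave `U`. -/
def BB (P Q : ℂ[X]) (U : Set ℂ) : Set ℂ := {z | z ∈ KR P Q U ∧ Lv P Q U z}

lemma Ma.BB_cpt (O : Ma A d P Q U U₁) : IsCompact (BB P Q U) := by
  have h1 : BB P Q U = KR P Q U ∩ {z | Lv P Q U z} := rfl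
  rw [h1]
  refine O.trap.kcpt.inter_right ?_
  rw [← isOpen_compl_iff, Metric.isOpen_iff]
  intro z hz
  rw [mem_compl_iff, mem_ofPred_eq] at hz
  unfold Lv at hz
  push Not at hz
  obtain ⟨s, hs, h⟩ := hz
  refine ⟨s / 2, by positivity, fun w hw => ?_⟩
  rw [mem_ball, dist_eq_norm] at hw
  rw [mem_compl_iff, mem_ofPred_eq]
  intro hlv
  obtain ⟨y, hy, N, hN⟩ := hlv (s / 2) (by positivity)
  apply hN
  apply h y _ N
  have := norm_add_le (y - w) (w - z)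
  rw [sub_add_sub_cancel] at this
  linarith

lemma Ma.BB_step (O : Ma A d P Q U U₁) {z : ℂ} (hz : z ∈ BB P Q U)
    (hfz : rf P Q z ∈ KR P Q U) : rf P Q z ∈ BB P Q U := by
  refine ⟨hfz, ?_⟩
  intro s hs
  by_contra hcon
  push Not at hcon
  have hzU : z ∈ U := KR_sub 0 hz.1
  have hQz : Q.eval z ≠ 0 := O.q z (subset_closure hzU)
  have h1 : ∀ᶠ w in 𝓝 z, ‖rf P Q w - rf P Q z‖ < s := by
    have h2 : ContinuousAt (fun w => ‖rf P Q w - rf P Q z‖) z :=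
      ((rf_contAt hQz).sub continuousAt_const).norm
    apply h2.eventually_lt_const
    change ‖rf P Q z - rf P Q z‖ < s
    rw [sub_self, norm_zero]
    exact hs
  have h3 : ∀ᶠ w in 𝓝 z, w ∈ U := O.trap.opn.mem_nhds hzU
  have h4 : ∀ᶠ w in 𝓝 z, Q.eval w ≠ 0 := Q.continuous.continuousAt.eventually_ne hQz
  obtain ⟨ε, hε, h5⟩ := Metric.eventually_nhds_iff.1 (h1.and (h3.and h4))
  obtain ⟨y, hy, N, hN⟩ := hz.2 ε hε
  obtain ⟨h6, h7, h8⟩ := h5 (by rw [dist_eq_norm]; exact hy)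
  rcases N with _ | N
  · exact hN h7
  · exact hN ⟨h8, hcon _ h6 N⟩

/-- **Values near the critical values.** -/
theorem Ma.val (O : Ma A d P Q U U₁) (hc : c ∈ Fa A P Q) (hv : Lv P Q U (rf P Q c)) :
    ∃ κ : ℝ, 1 ≤ κ ∧ ∀ z ∈ BB P Q U, ∃ u ∈ VV A P Q U,
    ‖rf P Q z - u‖ ≤ κ * (‖(wr P Q).eval z / Q.eval z ^ 2‖ * infDist z (Zq P Q)) := by
  have hKU : ∀ z ∈ BB P Q U, z ∈ closure U := fun z hz => subset_closure (KR_sub 0 hz.1)
  obtain ⟨κ, hκ⟩ : ∃ κ : ℝ, ∀ z ∈ BB P Q U, ∃ u ∈ VV A P Q U,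
      ‖rf P Q z - u‖ ≤ κ * (‖(wr P Q).eval z / Q.eval z ^ 2‖ * infDist z (Zq P Q)) := by
    refine O.BB_cpt.induction_on (p := fun s => ∃ κ : ℝ, ∀ z ∈ s, ∃ u ∈ VV A P Q U,
      ‖rf P Q z - u‖ ≤ κ * (‖(wr P Q).eval z / Q.eval z ^ 2‖ * infDist z (Zq P Q)))
      ?_ ?_ ?_ ?_
    · exact ⟨0, fun z hz => absurd hz (Set.notMem_empty z)⟩
    · rintro s t hst ⟨C, hC⟩
      exact ⟨C, fun z hz => hC z (hst hz)⟩
    · rintro s t ⟨C, hC⟩ ⟨C', hC'⟩
      refine ⟨max C C', fun z hz => ?_⟩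
      have h0 : 0 ≤ ‖(wr P Q).eval z / Q.eval z ^ 2‖ * infDist z (Zq P Q) :=
        mul_nonneg (norm_nonneg _) infDist_nonneg
      rcases hz with hz | hz
      · obtain ⟨u, hu, h1⟩ := hC z hz
        exact ⟨u, hu, h1.trans (by gcongr; exact le_max_left _ _)⟩
      · obtain ⟨u, hu, h1⟩ := hC' z hz
        exact ⟨u, hu, h1.trans (by gcongr; exact le_max_right _ _)⟩
    · intro z₀ hz₀
      have hQz₀ : Q.eval z₀ ≠ 0 := O.q _ (hKU _ hz₀)
      have hQev : ∀ᶠ z in 𝓝 z₀, Q.eval z ≠ 0 := Q.continuous.continuousAt.eventually_ne hQz₀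
      by_cases h0 : (wr P Q).eval z₀ = 0
      · have hzF : z₀ ∈ Fa A P Q := O.w _ (hKU _ hz₀) h0
        have hfz : rf P Q z₀ ∈ BB P Q U := O.BB_step hz₀ (O.kr (O.nv hzF 0))
        obtain ⟨g, h, hg, hg0, hh⟩ := O.near hzF
        have hcont : ContinuousAt (fun z => ‖h.eval z * Q.eval z / g.eval z‖) z₀ := by
          refine ContinuousAt.norm (ContinuousAt.div ?_ ?_ hg0)
          · exact (h.continuous.mul Q.continuous).continuousAt
          · exact g.continuous.continuousAt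
        obtain ⟨C, hC⟩ : ∃ C, C = ‖h.eval z₀ * Q.eval z₀ / g.eval z₀‖ + 1 := ⟨_, rfl⟩
        have hn1 := norm_nonneg (h.eval z₀ * Q.eval z₀ / g.eval z₀)
        have hev : ∀ᶠ z in 𝓝 z₀, ‖h.eval z * Q.eval z / g.eval z‖ < C :=
          hcont.eventually_lt_const (by rw [hC]; linarith)
        have hg1 : ∀ᶠ z in 𝓝 z₀, g.eval z ≠ 0 := g.continuous.continuousAt.eventually_ne hg0
        have hC0 : 0 ≤ C := by rw [hC]; positivity
        refine ⟨{z | ((‖z - z₀‖ ≤ infDist z (Zq P Q) ∧ ‖h.eval z * Q.eval z / g.eval z‖ < C) ∧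
          g.eval z ≠ 0) ∧ Q.eval z ≠ 0},
          mem_nhdsWithin_of_mem_nhds ((((O.hdist hzF).and hev).and hg1).and hQev), C, ?_⟩
        rintro z ⟨⟨⟨h1, h2⟩, h4⟩, h5⟩
        refine ⟨rf P Q z₀, ⟨z₀, hzF, rfl, hfz.2⟩, ?_⟩
        have e1 : (wr P Q).eval z = (z - z₀) * g.eval z := by
          have := congrArg (fun p => p.eval z) hg
          simpa using this
        have e2 : P.eval z - rf P Q z₀ * Q.eval z = (z - z₀) ^ 2 * h.eval z := by
          have := congrArg (fun p => p.eval z) hh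
          simpa using this
        have e3 : rf P Q z - rf P Q z₀ = (z - z₀) ^ 2 * h.eval z / Q.eval z := by
          rw [← e2]
          unfold rf
          field_simp
        have hQ0 : 0 < ‖Q.eval z‖ := norm_pos_iff.2 h5
        have hg0' : 0 < ‖g.eval z‖ := norm_pos_iff.2 h4
        have hI : 0 ≤ infDist z (Zq P Q) := infDist_nonneg
        have e4 : ‖(wr P Q).eval z / Q.eval z ^ 2‖ =
            ‖z - z₀‖ * (‖g.eval z‖ / ‖Q.eval z‖ ^ 2) := by
          rw [e1, norm_div, norm_mul, norm_pow]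
          ring
        rw [e3, e4, norm_div, norm_mul, norm_pow]
        rw [norm_div, norm_mul, div_lt_iff₀ hg0'] at h2
        calc ‖z - z₀‖ ^ 2 * ‖h.eval z‖ / ‖Q.eval z‖
            = ‖z - z₀‖ * ‖z - z₀‖ * (‖h.eval z‖ * ‖Q.eval z‖) / ‖Q.eval z‖ ^ 2 := by
              field_simp
          _ ≤ ‖z - z₀‖ * infDist z (Zq P Q) * (C * ‖g.eval z‖) / ‖Q.eval z‖ ^ 2 := by gcongr
          _ = _ := by ring
      · have hzZ : z₀ ∉ Zq P Q := by
          rintro (h | h)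
          · exact h0 h
          · exact hQz₀ h
        have h1 := O.Zpos hc hzZ
        have h1' : ‖(wr P Q).eval z₀ / Q.eval z₀ ^ 2‖ ≠ 0 :=
          norm_ne_zero_iff.2 (div_ne_zero h0 (pow_ne_zero 2 hQz₀))
        have h2 : ‖(wr P Q).eval z₀ / Q.eval z₀ ^ 2‖ * infDist z₀ (Zq P Q) ≠ 0 :=
          mul_ne_zero h1' h1.ne'
        have hcE : ContinuousAt (fun z => ‖(wr P Q).eval z / Q.eval z ^ 2‖) z₀ :=
          rf_continuousAt hQz₀
        have hcI : ContinuousAt (fun z => infDist z (Zq P Q)) z₀ :=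
          (continuous_infDist_pt _).continuousAt
        have hc1 : ContinuousAt (fun z => ‖(wr P Q).eval z / Q.eval z ^ 2‖ *
            infDist z (Zq P Q)) z₀ := hcE.mul hcI
        have hc2 : ContinuousAt (fun z => ‖rf P Q z - rf P Q c‖ /
            (‖(wr P Q).eval z / Q.eval z ^ 2‖ * infDist z (Zq P Q))) z₀ := by
          refine ContinuousAt.div ?_ hc1 h2
          exact ((rf_contAt hQz₀).sub continuousAt_const).norm
        obtain ⟨C, hC⟩ : ∃ C, C = ‖rf P Q z₀ - rf P Q c‖ /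
            (‖(wr P Q).eval z₀ / Q.eval z₀ ^ 2‖ * infDist z₀ (Zq P Q)) + 1 := ⟨_, rfl⟩
        have h3 : ∀ᶠ z in 𝓝 z₀, ‖rf P Q z - rf P Q c‖ /
            (‖(wr P Q).eval z / Q.eval z ^ 2‖ * infDist z (Zq P Q)) < C :=
          hc2.eventually_lt_const (by rw [hC]; linarith)
        have h4 : ∀ᶠ z in 𝓝 z₀, ‖(wr P Q).eval z / Q.eval z ^ 2‖ *
            infDist z (Zq P Q) ≠ 0 := hc1.eventually_ne h2
        refine ⟨_, mem_nhdsWithin_of_mem_nhds (h3.and h4), C, ?_⟩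
        rintro z ⟨h5, h6⟩
        refine ⟨rf P Q c, ⟨c, hc, rfl, hv⟩, ?_⟩
        have h7 : 0 < ‖(wr P Q).eval z / Q.eval z ^ 2‖ * infDist z (Zq P Q) :=
          lt_of_le_of_ne (mul_nonneg (norm_nonneg _) infDist_nonneg) (Ne.symm h6)
        rw [div_lt_iff₀ h7] at h5
        exact h5.le
  refine ⟨1 + |κ|, by have := abs_nonneg κ; linarith, fun z hz => ?_⟩
  obtain ⟨u, hu, h1⟩ := hκ z hz
  have h2 : κ ≤ 1 + |κ| := by have := le_abs_self κ; linarith
  have h3 : 0 ≤ infDist z (Zq P Q) := infDist_nonneg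
  exact ⟨u, hu, h1.trans (by gcongr)⟩

/-- A deep return gives an attracting cycle. -/
theorem no_deep (O : Ma A d P Q U U₁) (hc : c ∈ Fa A P Q)
    (hZ : ∀ j, (rf P Q)^[j] (rf P Q c) ∉ Zq P Q) {κ : ℝ} (hκ : 2 ≤ κ) {m : ℕ} (hm : 1 ≤ m) :
    ¬ Deep (rf P Q) (rf P Q c) (fun j => infDist ((rf P Q)^[j] (rf P Q c)) (Zq P Q)) κ m := by
  have hnv : ¬ A (rf P Q c) := O.nv hc 0
  obtain ⟨v, hve⟩ : ∃ v, v = rf P Q c := ⟨_, rfl⟩
  rw [← hve] at hZ hnv ⊢
  rintro ⟨ρ, hρ, hv, hx⟩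
  refine O.disc v m ρ hnv hm hρ ?_ (fun x hx' => (hx x hx').2) hv
  intro x hx' j hj h0
  have h1 := (hx x hx').1 j hj
  have h2 : infDist ((rf P Q)^[j] v) (Zq P Q) ≤ ‖(rf P Q)^[j] x - (rf P Q)^[j] v‖ := by
    rw [← dist_eq_norm, dist_comm]
    exact infDist_le_dist_of_mem (Or.inr h0)
  have h3 : 0 < infDist ((rf P Q)^[j] v) (Zq P Q) := O.Zpos hc (hZ j)
  nlinarith

/-- The system. -/
theorem sys_mu (O : Ma A d P Q U U₁) (hc : c ∈ Fa A P Q) (hv : Lv P Q U (rf P Q c))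
    (hne : ∀ j, (wr P Q).eval ((rf P Q)^[j] (rf P Q c)) ≠ 0) : ∃ κ : ℝ, 2 ≤ κ ∧
    Sysm (rf P Q) (rf P Q c) (VV A P Q U) (EE P Q c)
      (fun j => infDist ((rf P Q)^[j] (rf P Q c)) (Zq P Q)) κ := by
  obtain ⟨κ₀, hκ₀, hval⟩ := O.val hc hv
  have hvZ : ∀ j, (rf P Q)^[j] (rf P Q c) ∉ Zq P Q := by
    intro j
    rintro (h | h)
    · exact hne j h
    · exact O.qv hc j h
  have hB : ∀ j, (rf P Q)^[j] (rf P Q c) ∈ BB P Q U := by
    intro j
    induction j with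
    | zero => exact ⟨O.kr (O.nv hc 0), hv⟩
    | succ j ih =>
      have h1 := O.kr (O.nv hc (j + 1))
      rw [Function.iterate_succ_apply'] at h1 ⊢
      exact O.BB_step ih h1
  have h2 : (1 : ℝ) ≤ 2 ^ ((wr P Q).natDegree + 4 * Q.natDegree) := one_le_pow₀ (by norm_num)
  refine ⟨2 ^ ((wr P Q).natDegree + 4 * Q.natDegree) + κ₀, by linarith, ⟨by linarith,
    fun j => ?_, fun j => O.Zpos hc (hvZ j), ⟨c, hc, rfl, hv⟩, fun j => ?_, fun j w hw => ?_⟩⟩
  · unfold EE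
    exact norm_pos_iff.2 (div_ne_zero (hne j) (pow_ne_zero 2 (O.qv hc j)))
  · obtain ⟨u, hu, h3⟩ := hval _ (hB j)
    refine ⟨u, hu, ?_⟩
    rw [Function.iterate_succ_apply']
    refine h3.trans ?_
    have h5 : 0 ≤ ‖(wr P Q).eval ((rf P Q)^[j] (rf P Q c)) /
        Q.eval ((rf P Q)^[j] (rf P Q c)) ^ 2‖ *
          infDist ((rf P Q)^[j] (rf P Q c)) (Zq P Q) :=
      mul_nonneg (norm_nonneg _) infDist_nonneg
    exact mul_le_mul_of_nonneg_right (by linarith) h5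
  · rw [Function.iterate_succ_apply']
    exact lin_mu O hc (hvZ j) (by linarith) (by linarith) hw

/-- **The bound for the derivatives.** -/
theorem growth (O : Ma A d P Q U U₁) {D₀ : ℕ} (hna : Dir A d D₀ P Q U U₁) (hc : c ∈ Fa A P Q) :
    ∃ K : ℝ, ∀ N : ℕ, 2 ≤ N → ‖deriv ((rf P Q)^[N]) (rf P Q c)‖ ≤
      Real.exp (K * Real.log N ^ 2) := by
  obtain ⟨R, hR1, hUR⟩ : ∃ R : ℝ, 1 ≤ R ∧ U ⊆ ball 0 R := by
    obtain ⟨R, hR⟩ := O.trap.bdd.exists_norm_le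
    refine ⟨|R| + 1, by have := abs_nonneg R; linarith, fun z hz => ?_⟩
    rw [mem_ball_zero_iff]
    have := hR z hz
    have := le_abs_self R
    linarith
  have hUR' : ∀ z ∈ U, ‖z‖ ≤ R := fun z hz => (mem_ball_zero_iff.1 (hUR hz)).le
  have hR0 : 0 < R := by linarith
  by_cases hub : ∃ B : ℝ, ∀ N, ‖deriv ((rf P Q)^[N]) (rf P Q c)‖ ≤ B
  · obtain ⟨B, hB⟩ := hub
    exact Nl.bdd_quasi (B := max B 1) (le_max_right _ _) fun N => (hB N).trans (le_max_left _ _)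
  have hne : ∀ j, (wr P Q).eval ((rf P Q)^[j] (rf P Q c)) ≠ 0 := by
    intro j hj
    apply hub
    have hz : ∀ k, deriv ((rf P Q)^[j + 1 + k]) (rf P Q c) = 0 := by
      intro k
      induction k with
      | zero =>
        rw [add_zero, rf_iter_deriv_succ j fun i _ => O.qv hc i, hj, zero_div, zero_mul]
      | succ k ih =>
        rw [← add_assoc, rf_iter_deriv_succ _ fun i _ => O.qv hc i, ih, mul_zero]
    refine ⟨∑ i ∈ Finset.range (j + 1), ‖deriv ((rf P Q)^[i]) (rf P Q c)‖, fun N => ?_⟩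
    rcases lt_or_ge N (j + 1) with h | h
    · exact Finset.single_le_sum (f := fun i => ‖deriv ((rf P Q)^[i]) (rf P Q c)‖)
        (fun i _ => norm_nonneg _) (Finset.mem_range.2 h)
    · obtain ⟨k, rfl⟩ := Nat.exists_eq_add_of_le h
      rw [hz k, norm_zero]
      exact Finset.sum_nonneg fun i _ => norm_nonneg _
  push Not at hub
  have hleave : Lv P Q U (rf P Q c) := by
    intro s hs
    obtain ⟨N, hN⟩ := hub ((R + 1) / (s / 2))
    rw [div_lt_iff₀ (by positivity)] at hN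
    obtain ⟨y, hy, hyN⟩ := One.cauchy (P := P) (Q := Q) hUR' (by positivity : 0 < s / 2) hN.le
    exact ⟨y, by linarith, N, hyN⟩
  have hvZ : ∀ j, (rf P Q)^[j] (rf P Q c) ∉ Zq P Q := by
    intro j
    rintro (h | h)
    · exact hne j h
    · exact O.qv hc j h
  obtain ⟨κ, hκ2, S⟩ := sys_mu O hc hleave hne
  obtain ⟨A₀, hA1, C⟩ := cl_mu O hna hc hne hR0 hUR
  have hlog4 : 0 ≤ Real.log (4 * R) := Real.log_nonneg (by linarith)
  have hK : ∀ j, (rf P Q)^[j] (rf P Q c) ∈ KR P Q U := fun j => O.kr (O.nv hc j)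
  have hKU : KR P Q U ⊆ closure U := fun z hz => subset_closure (KR_sub 0 hz)
  obtain ⟨Λ, hΛ⟩ := O.trap.kcpt.exists_bound_of_continuousOn
    (f := fun z => ‖(wr P Q).eval z / Q.eval z ^ 2‖) (fun z hz =>
      (rf_continuousAt (O.q z (hKU hz))).continuousWithinAt)
  obtain ⟨K, hKK⟩ := quasi C S hA1 (by linarith) (Λ := max 1 Λ) (C₁ := R + 1)
    (le_max_left _ _) (by linarith)
    (fun j => by
      have h1 := hΛ _ (hK j)
      rw [norm_norm] at h1
      exact h1.trans (le_max_right _ _))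
    (fun N s _ hs h => by
      rw [O.DD_eq hc] at h
      exact One.cauchy hUR' hs h)
    (fun m hm => no_deep O hc hvZ hκ2 hm)
  refine ⟨K, fun N hN => ?_⟩
  have := hKK N hN
  rwa [O.DD_eq hc] at this

end Pool.Agent.Zk29.Po
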