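import Pool.Agent.Zk29.Po.E
import Pool.Agent.H713R5.QJ.TOPG

/-!
# Hyperbolic polynomials on the sphere
-/

set_option autoImplicit false
open Set Filter Topology Metric Polynomial
open scoped OnePoint

namespace Pool.Agent.Zk29.Po

open Pool.Agent.H792R2.CE Pool.Agent.H792R2.CE.C2x Pool.Agent.Helper114.Herman
open Pool.Agent.H713R5.QJ (ev Good opg_holds opg_growth opg_escape)
open Pool.Agent.Zk29.Mu (Basin Sink Hyp RD)

lemma rd_one {T : ℂ[X]} : RD T.natDegree T 1 := by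
  refine ⟨isCoprime_one_right, ?_⟩
  rw [natDegree_one]
  simp

lemma cont_one {T : ℂ[X]} (hT : 2 ≤ T.natDegree) : Continuous (sph T.natDegree T 1) :=
  Pool.Agent.Zk29.Mu.sph_cont (by omega) rd_one

lemma sph_one_coe {T : ℂ[X]} {d : ℕ} (z : ℂ) :
    sph d T 1 (z : OnePoint ℂ) = ((ev T z : ℂ) : OnePoint ℂ) := by
  rw [sph_coe_of_ne (by simp)]
  simp [ev, rf]

lemma sph_one_iter {T : ℂ[X]} {d : ℕ} (n : ℕ) (z : ℂ) :
    (sph d T 1)^[n] (z : OnePoint ℂ) = (((ev T)^[n] z : ℂ) : OnePoint ℂ) := by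
  induction n with
  | zero => rfl
  | succ n ih => rw [Function.iterate_succ_apply', ih, sph_one_coe, Function.iterate_succ_apply']

lemma grow_one {T : ℂ[X]} (hT : 2 ≤ T.natDegree) :
    ∃ R : ℝ, 1 ≤ R ∧ ∀ w : ℂ, R ≤ ‖w‖ → 2 * ‖w‖ ≤ ‖ev T w‖ := by
  have hlead : 0 < ‖T.coeff T.natDegree‖ := by
    rw [norm_pos_iff, Polynomial.coeff_natDegree, Polynomial.leadingCoeff_ne_zero]
    intro h0
    rw [h0, natDegree_zero] at hT
    omega
  refine ⟨max 1 ((∑ j ∈ Finset.range T.natDegree, ‖T.coeff j‖ + 2) / ‖T.coeff T.natDegree‖),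
    le_max_left _ _, fun w hw => ?_⟩
  refine opg_growth T hT le_rfl le_rfl (le_max_left _ _) ?_ hlead hw
  have h1 := le_max_right 1
    ((∑ j ∈ Finset.range T.natDegree, ‖T.coeff j‖ + 2) / ‖T.coeff T.natDegree‖)
  rw [div_le_iff₀ hlead] at h1
  linarith

/-- Convergence to infinity on the sphere. -/
lemma tend_inf {g : ℕ → ℂ} (h : Tendsto (fun k => ‖g k‖) atTop atTop) :
    Tendsto (fun k => ((g k : ℂ) : OnePoint ℂ)) atTop (𝓝 ∞) := by
  have h1 : Tendsto g atTop (Filter.cocompact ℂ) := by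
    rw [← Metric.cobounded_eq_cocompact]
    exact tendsto_norm_atTop_iff_cobounded.1 h
  rw [← Filter.coclosedCompact_eq_cocompact] at h1
  exact OnePoint.tendsto_coe_infty.comp h1

lemma att_one {T : ℂ[X]} {d p : ℕ} {u z : ℂ} (hp : 0 < p)
    (h : Pool.Agent.H713R5.QJ.Sk (ev T) p u z) : Att d T 1 (u : OnePoint ℂ) := by
  refine ⟨p, hp, z, fun i => ?_, ?_, ?_, ?_⟩
  · rw [sph_one_iter]
    exact OnePoint.coe_ne_infty _
  · rw [sph_one_iter, h.1]
  · rw [rf_one']
    exact h.2.1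
  · simp only [sph_one_iter]
    exact (OnePoint.continuous_coe.tendsto _).comp h.2.2

/-- Module HYPP. -/
theorem hyp : S_HYPP := by
  intro T hT hcr
  have hd : T.natDegree ≠ 0 := by omega
  obtain ⟨R, hR1, hR⟩ := grow_one hT
  have hinf : sph T.natDegree T 1 ∞ = ∞ := by
    rw [sph_infty]
    have h1 : (1 : ℂ[X]).coeff T.natDegree = 0 := by
      rw [coeff_one, if_neg (by omega)]
    rw [h1]
    exact pr_zero _
  have hinfk : ∀ k, (sph T.natDegree T 1)^[k] ∞ = ∞ := fun k =>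
    Function.iterate_fixed hinf k
  refine ⟨sph T.natDegree T 1, cont_one hT, fun z hz => sph_coe_of_ne hz, fun c hc => ?_⟩
  -- the neighbourhood of infinity
  have hnear : ∃ U ∈ 𝓝 (∞ : OnePoint ℂ), ∀ w ∈ U,
      Tendsto (fun k : ℕ => (sph T.natDegree T 1)^[1 * k] w) atTop (𝓝 ∞) := by
    refine ⟨{w | w = ∞ ∨ ∃ z : ℂ, w = z ∧ R ≤ ‖z‖}, ?_, ?_⟩
    · rw [OnePoint.nhds_infty_eq, Filter.mem_sup]
      refine ⟨?_, ?_⟩
      · rw [Filter.mem_map, Filter.coclosedCompact_eq_cocompact, ← Metric.cobounded_eq_cocompact]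
        filter_upwards [(tendsto_norm_cobounded_atTop (E := ℂ)).eventually_ge_atTop R] with z hz
        exact Or.inr ⟨z, rfl, hz⟩
      · exact Or.inl rfl
    · rintro w (rfl | ⟨z, rfl, hz⟩)
      · simp only [hinfk]
        exact tendsto_const_nhds
      · simp only [one_mul, sph_one_iter]
        exact tend_inf (opg_escape (k := 0) hR1 hR (by simpa using hz))
  induction c using OnePoint.rec with
  | infty =>
    refine ⟨∞, 1, one_pos, hinf, hnear, ?_⟩
    simp only [hinfk]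
    exact tendsto_const_nhds
  | coe w =>
    have hw : (derivative T).eval w = 0 := by
      by_contra h0
      apply hc
      refine C4_inj (by simp) ?_
      rw [wr_one]
      exact h0
    rcases hcr w hw with h1 | ⟨p, hp, z, hz⟩
    · refine ⟨∞, 1, one_pos, hinf, hnear, ?_⟩
      simp only [one_mul, sph_one_iter]
      exact tend_inf h1
    · obtain ⟨z, n, hn, hper, hU, ht⟩ := C3_sinks (cont_one hT) (att_one (d := T.natDegree) hp hz)
      exact ⟨z, n, hn, hper, hU, ht⟩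

end Pool.Agent.Zk29.Po
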