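import Pool.Agent.Zk29.Po.F5

/-!
# Recurrence of several free critical points
-/

set_option autoImplicit false
open Set Filter Topology Metric Polynomial
open scoped OnePoint

namespace Pool.Agent.Zk29.Po

open Pool.Agent.H792R2.CE Pool.Agent.H792R2.CE.C2x Pool.Agent.Zk29.Rat
open Pool.Agent.Zk29.Hy (EE Zq Zq_fin)
open Pool.Agent.Helper114.Herman Pool.Agent.Zk29.Ab

variable {A : ℂ → Prop} {d : ℕ} {P Q : ℂ[X]} {c c' : ℂ} {U U₁ : Set ℂ}

/-- The quadratic contraction near the free critical points. -/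
lemma Ma.quad (O : Ma A d P Q U U₁) : ∃ κ η : ℝ, 1 ≤ κ ∧ 0 < η ∧ ∀ c ∈ Fa A P Q, ∀ w : ℂ,
    ‖w - c‖ ≤ η → ‖rf P Q w - rf P Q c‖ ≤ κ * ‖w - c‖ ^ 2 := by
  have hF : (Fa A P Q).Finite := Fa_fin O.N0
  have key : ∀ c ∈ Fa A P Q, ∃ C : ℝ, ∀ᶠ w in 𝓝 c, ‖rf P Q w - rf P Q c‖ ≤ C * ‖w - c‖ ^ 2 := by
    intro c hc
    obtain ⟨g, h, -, -, hh⟩ := O.near hc
    have hQc : Q.eval c ≠ 0 := O.qorb hc 0
    have hcont : ContinuousAt (fun z => ‖h.eval z / Q.eval z‖) c :=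
      (h.continuous.continuousAt.div Q.continuous.continuousAt hQc).norm
    have hev : ∀ᶠ z in 𝓝 c, ‖h.eval z / Q.eval z‖ < ‖h.eval c / Q.eval c‖ + 1 :=
      hcont.eventually_lt_const (by linarith)
    have hq : ∀ᶠ z in 𝓝 c, Q.eval z ≠ 0 := Q.continuous.continuousAt.eventually_ne hQc
    refine ⟨‖h.eval c / Q.eval c‖ + 1, ?_⟩
    filter_upwards [hev, hq] with z h1 h2
    have e2 : P.eval z - rf P Q c * Q.eval z = (z - c) ^ 2 * h.eval z := by
      have := congrArg (fun p => p.eval z) hh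
      simpa using this
    have e3 : rf P Q z - rf P Q c = (z - c) ^ 2 * (h.eval z / Q.eval z) := by
      rw [← mul_div_assoc, ← e2]
      unfold rf
      field_simp
    rw [e3, norm_mul, norm_pow, mul_comm]
    gcongr
  choose! C hC using key
  obtain ⟨M, hM⟩ := (hF.image C).bddAbove
  have hall : ∀ c ∈ Fa A P Q, ∃ η : ℝ, 0 < η ∧ ∀ w : ℂ, ‖w - c‖ < η →
      ‖rf P Q w - rf P Q c‖ ≤ C c * ‖w - c‖ ^ 2 := by
    intro c hc
    obtain ⟨η, hη, h1⟩ := Metric.eventually_nhds_iff.1 (hC c hc)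
    exact ⟨η, hη, fun w hw => h1 (by rw [dist_eq_norm]; exact hw)⟩
  choose! η hη0 hη using hall
  obtain ⟨η₀, hη₀, hle⟩ : ∃ η₀ : ℝ, 0 < η₀ ∧ ∀ c ∈ Fa A P Q, η₀ ≤ η c := by
    rcases (Fa A P Q).eq_empty_or_nonempty with he | hne
    · exact ⟨1, one_pos, fun c hc => by rw [he] at hc; exact absurd hc (Set.notMem_empty c)⟩
    · obtain ⟨c₀, hc₀, hmin⟩ := Set.exists_min_image (Fa A P Q) η hF hne
      exact ⟨η c₀, hη0 c₀ hc₀, hmin⟩
  refine ⟨max 1 M, η₀ / 2, le_max_left _ _, by positivity, fun c hc w hw => ?_⟩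
  have h1 : C c ≤ max 1 M := (hM ⟨c, hc, rfl⟩).trans (le_max_right _ _)
  refine (hη c hc w (by have := hle c hc; linarith)).trans ?_
  gcongr

/-- The other zeros and the poles are far from the points which are not attracted. -/
lemma Ma.sep (O : Ma A d P Q U U₁) : ∃ δ : ℝ, 0 < δ ∧ ∀ z : ℂ, ¬ A z →
    ∀ q ∈ Zq P Q, q ∉ Fa A P Q → δ ≤ ‖z - q‖ := by
  have hK : IsCompact {z : ℂ | ¬ A z} := O.cpt
  have hB : IsClosed (Zq P Q \ Fa A P Q) :=
    ((Zq_fin (O.N0) O.Q0).subset sdiff_subset).isClosed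
  have hdis : Disjoint {z : ℂ | ¬ A z} (Zq P Q \ Fa A P Q) := by
    rw [Set.disjoint_left]
    rintro z hz ⟨h1 | h1, h2⟩
    · exact h2 ⟨h1, hz⟩
    · exact (O.step _ hz).1 h1
  obtain ⟨δ, hδ, h⟩ := hdis.exists_thickenings hK hB
  refine ⟨δ, hδ, fun z hz q hq hqF => ?_⟩
  by_contra hcon
  push Not at hcon
  have h1 : z ∈ thickening δ {z : ℂ | ¬ A z} :=
    self_subset_thickening hδ _ hz
  have h2 : z ∈ thickening δ (Zq P Q \ Fa A P Q) := by
    rw [mem_thickening_iff]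
    exact ⟨q, ⟨hq, hqF⟩, by rw [dist_eq_norm]; exact hcon⟩
  exact Set.disjoint_left.1 h h1 h2

/-- The orbits near a free critical value are controlled until the first close passage. -/
lemma track (O : Ma A d P Q U U₁) (hc : c ∈ Fa A P Q) {κ : ℝ}
    (hκ : 2 ^ ((wr P Q).natDegree + 4 * Q.natDegree) ≤ κ) (hκ2 : 2 ≤ κ) {N : ℕ} (hN : 1 ≤ N)
    {G : ℝ} (hG : ∀ n ≤ N, ‖deriv ((rf P Q)^[n]) (rf P Q c)‖ ≤ G) {s : ℝ} (hs : 0 < s)
    {w : ℂ} (hw : ‖w - rf P Q c‖ ≤ s) (hG1 : 1 ≤ G) {l : ℕ} (hl : l ≤ N)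
    (hθ : ∀ i < l, κ * N * (3 * G * s) ≤ infDist ((rf P Q)^[i] (rf P Q c)) (Zq P Q)) :
    ‖(rf P Q)^[l] w - (rf P Q)^[l] (rf P Q c)‖ ≤
      ‖deriv ((rf P Q)^[l]) (rf P Q c)‖ * s * (1 + 1 / N) ^ l ∧
    ‖(rf P Q)^[l] w - (rf P Q)^[l] (rf P Q c)‖ ≤ 3 * G * s := by
  have hN0 : (0 : ℝ) < N := by exact_mod_cast hN
  have hN1 : (1 : ℝ) ≤ N := by exact_mod_cast hN
  have hexp : ∀ l ≤ N, (1 + 1 / (N : ℝ)) ^ l ≤ 3 := by
    intro l hl
    have h1 : (1 + 1 / (N : ℝ)) ≤ Real.exp (1 / N) := by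
      have := Real.add_one_le_exp (1 / (N : ℝ))
      linarith
    calc (1 + 1 / (N : ℝ)) ^ l ≤ Real.exp (1 / N) ^ l := by gcongr
      _ = Real.exp (l * (1 / N)) := by rw [← Real.exp_nat_mul]
      _ ≤ Real.exp 1 := by
          apply Real.exp_le_exp.2
          have h2 : (l : ℝ) ≤ N := by exact_mod_cast hl
          rw [mul_one_div, div_le_one hN0]
          exact h2
      _ ≤ 3 := by
          have := Real.exp_one_lt_d9
          linarith
  have hfin : ∀ l ≤ N, ‖deriv ((rf P Q)^[l]) (rf P Q c)‖ * s * (1 + 1 / (N : ℝ)) ^ l ≤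
      3 * G * s := by
    intro l hl
    have h1 := hG l hl
    have h2 := hexp l hl
    calc ‖deriv ((rf P Q)^[l]) (rf P Q c)‖ * s * (1 + 1 / (N : ℝ)) ^ l ≤ G * s * 3 := by gcongr
      _ = 3 * G * s := by ring
  suffices h : ‖(rf P Q)^[l] w - (rf P Q)^[l] (rf P Q c)‖ ≤
      ‖deriv ((rf P Q)^[l]) (rf P Q c)‖ * s * (1 + 1 / N) ^ l from ⟨h, h.trans (hfin l hl)⟩
  induction l with
  | zero =>
    rw [Function.iterate_zero, deriv_id, norm_one, pow_zero, one_mul, mul_one]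
    exact hw
  | succ l ih =>
    have ih' := ih (by omega) fun i hi => hθ i (by omega)
    have hth := hθ l (by omega)
    have ha : 0 < 3 * G * s := by positivity
    have h3 : ‖(rf P Q)^[l] w - (rf P Q)^[l] (rf P Q c)‖ ≤ 3 * G * s :=
      ih'.trans (hfin l (by omega))
    have hth0 : 0 < infDist ((rf P Q)^[l] (rf P Q c)) (Zq P Q) := by
      refine lt_of_lt_of_le ?_ hth
      positivity
    have hz : (rf P Q)^[l] (rf P Q c) ∉ Zq P Q := by
      intro h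
      rw [infDist_zero_of_mem h] at hth0
      exact lt_irrefl _ hth0
    have h4 : κ * ‖(rf P Q)^[l] w - (rf P Q)^[l] (rf P Q c)‖ ≤
        infDist ((rf P Q)^[l] (rf P Q c)) (Zq P Q) := by
      refine le_trans ?_ hth
      calc κ * ‖(rf P Q)^[l] w - (rf P Q)^[l] (rf P Q c)‖ ≤ κ * (3 * G * s) := by gcongr
        _ = κ * 1 * (3 * G * s) := by ring
        _ ≤ κ * N * (3 * G * s) := by gcongr
    have h5 := lin_mu O hc hz hκ hκ2 h4
    have h6 : κ * ‖(rf P Q)^[l] w - (rf P Q)^[l] (rf P Q c)‖ /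
        infDist ((rf P Q)^[l] (rf P Q c)) (Zq P Q) ≤ 1 / N := by
      rw [div_le_div_iff₀ hth0 hN0, one_mul]
      refine le_trans ?_ hth
      calc κ * ‖(rf P Q)^[l] w - (rf P Q)^[l] (rf P Q c)‖ * N ≤ κ * (3 * G * s) * N := by gcongr
        _ = κ * N * (3 * G * s) := by ring
    rw [Function.iterate_succ_apply', Function.iterate_succ_apply',
      rf_iter_deriv_succ l fun i _ => O.qv hc i, norm_mul]
    refine h5.trans ?_
    calc ‖(wr P Q).eval ((rf P Q)^[l] (rf P Q c)) / Q.eval ((rf P Q)^[l] (rf P Q c)) ^ 2‖ *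
          ‖(rf P Q)^[l] w - (rf P Q)^[l] (rf P Q c)‖ *
          (1 + κ * ‖(rf P Q)^[l] w - (rf P Q)^[l] (rf P Q c)‖ /
            infDist ((rf P Q)^[l] (rf P Q c)) (Zq P Q))
        ≤ ‖(wr P Q).eval ((rf P Q)^[l] (rf P Q c)) / Q.eval ((rf P Q)^[l] (rf P Q c)) ^ 2‖ *
          (‖deriv ((rf P Q)^[l]) (rf P Q c)‖ * s * (1 + 1 / N) ^ l) * (1 + 1 / N) := by
          gcongr
      _ = _ := by ring

/-- **Shadowing through close passages.** Small discs around the free critical values stay small,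
as long as the derivatives at the free critical values are bounded. -/
theorem small (O : Ma A d P Q U U₁) {κ η δ : ℝ}
    (hκ : 2 ^ ((wr P Q).natDegree + 4 * Q.natDegree) ≤ κ) (hκ2 : 2 ≤ κ)
    (hquad : ∀ c ∈ Fa A P Q, ∀ w : ℂ, ‖w - c‖ ≤ η → ‖rf P Q w - rf P Q c‖ ≤ κ * ‖w - c‖ ^ 2)
    (hsep : ∀ z : ℂ, ¬ A z → ∀ q ∈ Zq P Q, q ∉ Fa A P Q → δ ≤ ‖z - q‖)
    {N : ℕ} (hN : 1 ≤ N) {G : ℝ} (hG1 : 1 ≤ G)
    (hG : ∀ c ∈ Fa A P Q, ∀ n ≤ N, ‖deriv ((rf P Q)^[n]) (rf P Q c)‖ ≤ G) {s₀ : ℝ}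
    (h1 : 2 * (κ * N * (3 * G * s₀)) ≤ η) (h2 : κ * N * (3 * G * s₀) < δ)
    (h3 : 36 * κ ^ 3 * N ^ 2 * G ^ 2 * s₀ ≤ 1) (m : ℕ) (hm : m ≤ N) :
    ∀ c ∈ Fa A P Q, ∀ s : ℝ, 0 < s → s ≤ s₀ → ∀ w : ℂ, ‖w - rf P Q c‖ ≤ s →
      (∀ j ≤ m, Q.eval ((rf P Q)^[j] w) ≠ 0) ∧
      ∀ w' : ℂ, ‖w' - rf P Q c‖ ≤ s → ‖(rf P Q)^[m] w - (rf P Q)^[m] w'‖ ≤ 6 * G * s := by
  have hN0 : (0 : ℝ) < N := by exact_mod_cast hN
  have hN1 : (1 : ℝ) ≤ N := by exact_mod_cast hN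
  have hd0 : 0 < d := by have := O.d2; omega
  have hZf : (Zq P Q).Finite := Zq_fin (O.N0) O.Q0
  induction m using Nat.strong_induction_on with
  | _ m ih =>
  intro c hc s hs hs0 w hw
  have ha : 0 < 3 * G * s := by positivity
  have hA : 0 < κ * N * (3 * G * s) := by positivity
  have haA : 3 * G * s ≤ κ * N * (3 * G * s) := by
    have h4 : 1 ≤ κ * N := one_le_mul_of_one_le_of_one_le (by linarith) hN1
    exact le_mul_of_one_le_left ha.le h4
  have hA2 : κ * N * (3 * G * s) ≤ κ * N * (3 * G * s₀) := by gcongr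
  -- poles are avoided close to the orbit
  have hQn : ∀ (j : ℕ) (u : ℂ), ‖u - (rf P Q)^[j] (rf P Q c)‖ ≤ 3 * G * s → Q.eval u ≠ 0 := by
    intro j u hu h0
    have h4 : u ∉ Fa A P Q := by
      intro h5
      have h6 := O.qorb h5 0
      exact h6 h0
    have h5 := hsep _ (O.nv hc j) u (Or.inr h0) h4
    rw [norm_sub_rev] at h5
    linarith
  by_cases hex : ∃ i, i < m ∧ infDist ((rf P Q)^[i] (rf P Q c)) (Zq P Q) < κ * N * (3 * G * s)
  · classical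
    obtain ⟨him, hi⟩ := Nat.find_spec hex
    obtain ⟨i, hie⟩ : ∃ i, i = Nat.find hex := ⟨_, rfl⟩
    rw [← hie] at him hi
    have hmin : ∀ l < i, κ * N * (3 * G * s) ≤ infDist ((rf P Q)^[l] (rf P Q c)) (Zq P Q) := by
      intro l hl
      by_contra hcon
      push Not at hcon
      exact Nat.find_min hex (by rw [← hie]; exact hl) ⟨by omega, hcon⟩
    have htr : ∀ u : ℂ, ‖u - rf P Q c‖ ≤ s → ∀ l ≤ i,
        ‖(rf P Q)^[l] u - (rf P Q)^[l] (rf P Q c)‖ ≤ 3 * G * s := fun u hu l hl =>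
      (track O hc hκ hκ2 hN (fun n hn => hG c hc n hn) hs hu hG1 (by omega)
        fun j hj => hmin j (by omega)).2
    -- the nearest point is a free critical point
    obtain ⟨q, hq, hqd⟩ : ∃ q ∈ Zq P Q, infDist ((rf P Q)^[i] (rf P Q c)) (Zq P Q) =
        dist ((rf P Q)^[i] (rf P Q c)) q :=
      hZf.isCompact.exists_infDist_eq_dist ⟨c, Or.inl hc.1⟩ _
    rw [hqd, dist_eq_norm] at hi
    have hqF : q ∈ Fa A P Q := by
      by_contra hcon
      have := hsep _ (O.nv hc i) q hq hcon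
      linarith
    have hstep : ∀ u : ℂ, ‖u - rf P Q c‖ ≤ s →
        ‖(rf P Q)^[i + 1] u - rf P Q q‖ ≤ 4 * κ * (κ * N * (3 * G * s)) ^ 2 := by
      intro u hu
      have h4 := htr u hu i le_rfl
      have h5 : ‖(rf P Q)^[i] u - q‖ ≤ 2 * (κ * N * (3 * G * s)) := by
        have := norm_add_le ((rf P Q)^[i] u - (rf P Q)^[i] (rf P Q c))
          ((rf P Q)^[i] (rf P Q c) - q)
        rw [sub_add_sub_cancel] at this
        linarith
      rw [Function.iterate_succ_apply']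
      refine (hquad q hqF _ (by linarith)).trans ?_
      calc κ * ‖(rf P Q)^[i] u - q‖ ^ 2 ≤ κ * (2 * (κ * N * (3 * G * s))) ^ 2 := by gcongr
        _ = _ := by ring
    have hs' : 4 * κ * (κ * N * (3 * G * s)) ^ 2 ≤ s := by
      calc 4 * κ * (κ * N * (3 * G * s)) ^ 2 = (36 * κ ^ 3 * N ^ 2 * G ^ 2 * s) * s := by ring
        _ ≤ (36 * κ ^ 3 * N ^ 2 * G ^ 2 * s₀) * s := by gcongr
        _ ≤ 1 * s := by gcongr
        _ = s := one_mul s
    have hs'0 : 0 < 4 * κ * (κ * N * (3 * G * s)) ^ 2 := by positivity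
    have hrec := ih (m - (i + 1)) (by omega) (by omega) q hqF _ hs'0 (hs'.trans hs0)
    obtain ⟨hr1, hr2⟩ := hrec _ (hstep w hw)
    refine ⟨fun j hj => ?_, fun w' hw' => ?_⟩
    · rcases Nat.lt_or_ge j (i + 1) with h | h
      · exact hQn j _ (htr w hw j (by omega))
      · have h4 := hr1 (j - (i + 1)) (by omega)
        rwa [← Function.iterate_add_apply, Nat.sub_add_cancel h] at h4
    · have h4 := hr2 _ (hstep w' hw')
      rw [← Function.iterate_add_apply, ← Function.iterate_add_apply,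
        Nat.sub_add_cancel (by omega : i + 1 ≤ m)] at h4
      refine h4.trans ?_
      gcongr
  · push Not at hex
    have htr : ∀ u : ℂ, ‖u - rf P Q c‖ ≤ s → ∀ l ≤ m,
        ‖(rf P Q)^[l] u - (rf P Q)^[l] (rf P Q c)‖ ≤ 3 * G * s := fun u hu l hl =>
      (track O hc hκ hκ2 hN (fun n hn => hG c hc n hn) hs hu hG1 (by omega)
        fun j hj => hex j (by omega)).2
    refine ⟨fun j hj => hQn j _ (htr w hw j hj), fun w' hw' => ?_⟩
    have h4 := htr w hw m le_rfl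
    have h5 := htr w' hw' m le_rfl
    rw [norm_sub_rev] at h5
    have := norm_add_le ((rf P Q)^[m] w - (rf P Q)^[m] (rf P Q c))
      ((rf P Q)^[m] (rf P Q c) - (rf P Q)^[m] w')
    rw [sub_add_sub_cancel] at this
    linarith

end Pool.Agent.Zk29.Po
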