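import Pool.Agent.Zk29.Po.R1
import Pool.Agent.Zk29.Mu.S1

/-!
# Lipschitz bounds on discs about the free critical values and cycles of close passages
-/

set_option autoImplicit false
open Set Filter Topology Metric Polynomial
open scoped OnePoint

namespace Pool.Agent.Zk29.Po

open Pool.Agent.H792R2.CE Pool.Agent.H792R2.CE.C2x Pool.Agent.Zk29.Rat
open Pool.Agent.Zk29.Hy (EE Zq Zq_fin)
open Pool.Agent.Helper114.Herman Pool.Agent.Zk29.Ab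
open Pool.Agent.Zk29.Mu (absorb)

variable {A : ℂ → Prop} {d : ℕ} {P Q : ℂ[X]} {c c' : ℂ} {U U₁ : Set ℂ}

/-- The derivatives up to time `N` at the free critical values. -/
lemma gbound (O : Ma A d P Q U U₁) {D₀ : ℕ} (hna : Dir A d D₀ P Q U U₁) : ∃ B K : ℝ, 1 ≤ B ∧ 0 ≤ K ∧
    ∀ N : ℕ, 2 ≤ N → ∀ c ∈ Fa A P Q, ∀ n ≤ N, ‖deriv ((rf P Q)^[n]) (rf P Q c)‖ ≤
      B * Real.exp (K * Real.log N ^ 2) := by
  have hF : (Fa A P Q).Finite := Fa_fin O.N0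
  have hgr : ∀ c ∈ Fa A P Q, ∃ K : ℝ, ∀ N : ℕ, 2 ≤ N →
      ‖deriv ((rf P Q)^[N]) (rf P Q c)‖ ≤ Real.exp (K * Real.log N ^ 2) :=
    fun c hc => growth O hna hc
  choose! Kc hKc using hgr
  obtain ⟨M, hM⟩ := (hF.image Kc).bddAbove
  obtain ⟨K₀, hK₀⟩ : ∃ K₀, K₀ = max 0 M := ⟨_, rfl⟩
  have hK00 : 0 ≤ K₀ := by rw [hK₀]; exact le_max_left _ _
  have hgr : ∀ c ∈ Fa A P Q, ∀ N : ℕ, 2 ≤ N →
      ‖deriv ((rf P Q)^[N]) (rf P Q c)‖ ≤ Real.exp (K₀ * Real.log N ^ 2) := by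
    intro c hc N hN
    refine (hKc c hc N hN).trans (Real.exp_le_exp.2 ?_)
    have : Kc c ≤ K₀ := by
      rw [hK₀]
      exact (hM ⟨c, hc, rfl⟩).trans (le_max_right _ _)
    gcongr
  obtain ⟨B, hB⟩ := (hF.image fun c => ‖deriv ((rf P Q)^[1]) (rf P Q c)‖).bddAbove
  obtain ⟨B', hB'⟩ : ∃ B', B' = max 1 B := ⟨_, rfl⟩
  have hB1 : 1 ≤ B' := by rw [hB']; exact le_max_left _ _
  refine ⟨B', K₀, hB1, hK00, fun N hN c hc n hn => ?_⟩
  have hexp1 : 1 ≤ Real.exp (K₀ * Real.log N ^ 2) := Real.one_le_exp (by positivity)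
  rcases Nat.lt_or_ge n 2 with h | h
  · refine le_trans ?_ (le_mul_of_one_le_right (by linarith) hexp1)
    interval_cases n
    · rw [Function.iterate_zero, deriv_id, norm_one]
      exact hB1
    · rw [hB']
      exact (hB ⟨c, hc, rfl⟩).trans (le_max_right _ _)
  · have h1 : Real.log n ≤ Real.log N :=
      Real.log_le_log (by positivity) (by exact_mod_cast hn)
    have h2 : 0 ≤ Real.log n := Real.log_natCast_nonneg n
    calc _ ≤ Real.exp (K₀ * Real.log n ^ 2) := hgr c hc n h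
      _ ≤ Real.exp (K₀ * Real.log N ^ 2) := Real.exp_le_exp.2 (by gcongr)
      _ ≤ _ := le_mul_of_one_le_left (Real.exp_pos _).le hB1

/-- **The Lipschitz bound on discs about the free critical values.** -/
theorem lip_N (O : Ma A d P Q U U₁) : ∃ C : ℝ, 1 ≤ C ∧ ∀ N : ℕ, 1 ≤ N → ∀ G : ℝ, 1 ≤ G →
    (∀ c ∈ Fa A P Q, ∀ n ≤ N, ‖deriv ((rf P Q)^[n]) (rf P Q c)‖ ≤ G) →
    ∀ c ∈ Fa A P Q, ∀ s : ℝ, 0 < s → C * N ^ 2 * G ^ 2 * s ≤ 1 →
      ∀ w : ℂ, ‖w - rf P Q c‖ ≤ s → (∀ j ≤ N, Q.eval ((rf P Q)^[j] w) ≠ 0) ∧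
        ∀ w' : ℂ, ‖w' - rf P Q c‖ ≤ s →
          ‖(rf P Q)^[N] w - (rf P Q)^[N] w'‖ ≤ 12 * G * ‖w - w'‖ := by
  obtain ⟨κ₀, η, hκ₀, hη, hquad⟩ := O.quad
  obtain ⟨δ, hδ, hsep⟩ := O.sep
  obtain ⟨κ, hκe⟩ : ∃ κ, κ = max (2 ^ ((wr P Q).natDegree + 4 * Q.natDegree)) (max 2 κ₀) :=
    ⟨_, rfl⟩
  have hκ : 2 ^ ((wr P Q).natDegree + 4 * Q.natDegree) ≤ κ := by rw [hκe]; exact le_max_left _ _
  have hκ2 : 2 ≤ κ := by rw [hκe]; exact (le_max_left _ _).trans (le_max_right _ _)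
  have hκ3 : κ₀ ≤ κ := by rw [hκe]; exact (le_max_right _ _).trans (le_max_right _ _)
  have hquad' : ∀ c ∈ Fa A P Q, ∀ w : ℂ, ‖w - c‖ ≤ η →
      ‖rf P Q w - rf P Q c‖ ≤ κ * ‖w - c‖ ^ 2 := fun c hc w hw =>
    (hquad c hc w hw).trans (by gcongr)
  obtain ⟨C, hCe⟩ : ∃ C, C = 72 * κ ^ 3 + 12 * κ / η + 12 * κ / δ := ⟨_, rfl⟩
  have hp1 : 0 ≤ 12 * κ / η := by positivity
  have hp2 : 0 ≤ 12 * κ / δ := by positivity
  have hp3 : 0 ≤ 72 * κ ^ 3 := by positivity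
  have hC1 : 72 * κ ^ 3 ≤ C := by rw [hCe]; linarith
  have hC2 : 12 * κ / η ≤ C := by rw [hCe]; linarith
  have hC3 : 12 * κ / δ ≤ C := by rw [hCe]; linarith
  have hκ8 : 8 ≤ κ ^ 3 := by
    calc (8 : ℝ) = 2 ^ 3 := by norm_num
      _ ≤ κ ^ 3 := by gcongr
  refine ⟨C, by linarith, fun N hN G hG1 hG c hc s hs hCs => ?_⟩
  have hN1 : (1 : ℝ) ≤ N := by exact_mod_cast hN
  have hC0 : 0 < C := by linarith
  have hNG : 1 ≤ (N : ℝ) * G := one_le_mul_of_one_le_of_one_le hN1 hG1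
  have hNGs : N * G * s ≤ N ^ 2 * G ^ 2 * s := by
    have h1 : (N : ℝ) * G ≤ (N * G) * (N * G) := le_mul_of_one_le_left (by positivity) hNG
    calc N * G * s ≤ (N * G) * (N * G) * s := by gcongr
      _ = _ := by ring
  have e2 : 12 * κ * (N * G * s) ≤ η := by
    calc 12 * κ * (N * G * s) = (12 * κ / η) * (N * G * s) * η := by field_simp
      _ ≤ C * (N ^ 2 * G ^ 2 * s) * η := by gcongr
      _ = (C * N ^ 2 * G ^ 2 * s) * η := by ring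
      _ ≤ 1 * η := by gcongr
      _ = η := one_mul _
  have e3 : 12 * κ * (N * G * s) ≤ δ := by
    calc 12 * κ * (N * G * s) = (12 * κ / δ) * (N * G * s) * δ := by field_simp
      _ ≤ C * (N ^ 2 * G ^ 2 * s) * δ := by gcongr
      _ = (C * N ^ 2 * G ^ 2 * s) * δ := by ring
      _ ≤ 1 * δ := by gcongr
      _ = δ := one_mul _
  have hpos : 0 < κ * (N * G * s) := by positivity
  have hS := small O hκ hκ2 hquad' hsep hN hG1 hG (s₀ := 2 * s)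
    (by
      have : 2 * (κ * N * (3 * G * (2 * s))) = 12 * κ * (N * G * s) := by ring
      rw [this]
      exact e2)
    (by
      have : κ * N * (3 * G * (2 * s)) = 6 * (κ * (N * G * s)) := by ring
      rw [this]
      have : 12 * κ * (N * G * s) = 12 * (κ * (N * G * s)) := by ring
      linarith)
    (by
      calc 36 * κ ^ 3 * N ^ 2 * G ^ 2 * (2 * s) = (72 * κ ^ 3) * (N ^ 2 * G ^ 2 * s) := by ring
        _ ≤ C * (N ^ 2 * G ^ 2 * s) := by gcongr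
        _ = C * N ^ 2 * G ^ 2 * s := by ring
        _ ≤ 1 := hCs) N le_rfl c hc (2 * s) (by positivity) le_rfl
  intro w hw
  refine ⟨(hS w (by linarith)).1, fun w' hw' => ?_⟩
  obtain ⟨g, hg⟩ : ∃ g, g = (rf P Q)^[N] := ⟨_, rfl⟩
  have hdiff : ∀ x, ‖x - rf P Q c‖ ≤ 2 * s → DifferentiableAt ℂ g x := fun x hx' => by
    rw [hg]
    exact rf_iter_diff N fun j hj => (hS x hx').1 j (by omega)
  have hder : ∀ x, ‖x - rf P Q c‖ ≤ s → ‖deriv g x‖ ≤ 12 * G := by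
    intro x hx'
    have h1 : ∀ y ∈ closedBall x s, ‖y - rf P Q c‖ ≤ 2 * s := by
      intro y hy
      rw [mem_closedBall, dist_eq_norm] at hy
      have := norm_add_le (y - x) (x - rf P Q c)
      rw [sub_add_sub_cancel] at this
      linarith
    have h2 : ‖deriv (fun y => g y - g x) x‖ ≤ (6 * G * (2 * s)) / s := by
      apply Complex.norm_deriv_le_of_forall_mem_sphere_norm_le (by positivity)
      · apply DifferentiableOn.diffContOnCl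
        rw [closure_ball _ (by positivity)]
        intro y hy
        exact ((hdiff y (h1 y hy)).sub_const _).differentiableWithinAt
      · intro y hy
        rw [hg]
        exact (hS y (h1 y (sphere_subset_closedBall hy))).2 x (by linarith)
    rw [deriv_sub_const] at h2
    refine h2.trans (le_of_eq ?_)
    field_simp
    norm_num
  rw [← hg]
  refine (convex_closedBall (rf P Q c) s).norm_image_sub_le_of_norm_deriv_le (f := g)
      (fun u hu => ?_) (fun u hu => ?_) ?_ ?_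
  · rw [mem_closedBall, dist_eq_norm] at hu
    exact hdiff u (by linarith)
  · rw [mem_closedBall, dist_eq_norm] at hu
    exact hder u hu
  · rwa [mem_closedBall, dist_eq_norm]
  · rwa [mem_closedBall, dist_eq_norm]

/-- One close passage. -/
lemma passage (O : Ma A d P Q U U₁) : ∃ C : ℝ, 1 ≤ C ∧ ∀ N : ℕ, 1 ≤ N → ∀ G : ℝ, 1 ≤ G →
    (∀ c ∈ Fa A P Q, ∀ n ≤ N, ‖deriv ((rf P Q)^[n]) (rf P Q c)‖ ≤ G) →
    ∀ ρ : ℝ, 0 < ρ → C * N * G * ρ ≤ 1 → ∃ r : ℝ, 0 < r ∧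
      ∀ c ∈ Fa A P Q, ∀ c' ∈ Fa A P Q, ∀ j ≤ N, ‖(rf P Q)^[j] (rf P Q c) - c'‖ ≤ ρ →
        ∀ w : ℂ, ‖w - rf P Q c‖ ≤ 2 * r → (∀ i < j + 1, Q.eval ((rf P Q)^[i] w) ≠ 0) ∧
          ‖(rf P Q)^[j + 1] w - rf P Q c'‖ ≤ r / 8 := by
  obtain ⟨κ₀, η, hκ₀, hη, hquad⟩ := O.quad
  obtain ⟨δ, hδ, hsep⟩ := O.sep
  obtain ⟨κ, hκe⟩ : ∃ κ, κ = max (2 ^ ((wr P Q).natDegree + 4 * Q.natDegree)) (max 2 κ₀) :=
    ⟨_, rfl⟩
  have hκ : 2 ^ ((wr P Q).natDegree + 4 * Q.natDegree) ≤ κ := by rw [hκe]; exact le_max_left _ _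
  have hκ2 : 2 ≤ κ := by rw [hκe]; exact (le_max_left _ _).trans (le_max_right _ _)
  have hκ3 : κ₀ ≤ κ := by rw [hκe]; exact (le_max_right _ _).trans (le_max_right _ _)
  have hquad' : ∀ c ∈ Fa A P Q, ∀ w : ℂ, ‖w - c‖ ≤ η →
      ‖rf P Q w - rf P Q c‖ ≤ κ * ‖w - c‖ ^ 2 := fun c hc w hw =>
    (hquad c hc w hw).trans (by gcongr)
  obtain ⟨C, hCe⟩ : ∃ C, C = 3000 * κ ^ 2 + 3000 * κ ^ 2 / η + 3000 * κ ^ 2 / δ := ⟨_, rfl⟩
  have hp1 : 0 ≤ 3000 * κ ^ 2 / η := by positivity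
  have hp2 : 0 ≤ 3000 * κ ^ 2 / δ := by positivity
  have hp3 : 0 ≤ 3000 * κ ^ 2 := by positivity
  have hC1 : 3000 * κ ^ 2 ≤ C := by rw [hCe]; linarith
  have hC2 : 3000 * κ ^ 2 / η ≤ C := by rw [hCe]; linarith
  have hC3 : 3000 * κ ^ 2 / δ ≤ C := by rw [hCe]; linarith
  have hκsq : 4 ≤ κ ^ 2 := by nlinarith
  refine ⟨C, by linarith, fun N hN G hG1 hG ρ hρ hρC => ?_⟩
  have hN1 : (1 : ℝ) ≤ N := by exact_mod_cast hN
  have hC0 : 0 < C := by linarith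
  have hNG : 1 ≤ (N : ℝ) * G := one_le_mul_of_one_le_of_one_le hN1 hG1
  have e1 : 3000 * κ ^ 2 * (N * G * ρ) ≤ 1 := by
    calc 3000 * κ ^ 2 * (N * G * ρ) ≤ C * (N * G * ρ) := by gcongr
      _ = C * N * G * ρ := by ring
      _ ≤ 1 := hρC
  have e2 : 3000 * κ ^ 2 * (N * G * ρ) ≤ η := by
    calc 3000 * κ ^ 2 * (N * G * ρ) = (3000 * κ ^ 2 / η) * (N * G * ρ) * η := by field_simp
      _ ≤ C * (N * G * ρ) * η := by gcongr
      _ = (C * N * G * ρ) * η := by ring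
      _ ≤ 1 * η := by gcongr
      _ = η := one_mul _
  have e3 : 3000 * κ ^ 2 * (N * G * ρ) ≤ δ := by
    calc 3000 * κ ^ 2 * (N * G * ρ) = (3000 * κ ^ 2 / δ) * (N * G * ρ) * δ := by field_simp
      _ ≤ C * (N * G * ρ) * δ := by gcongr
      _ = (C * N * G * ρ) * δ := by ring
      _ ≤ 1 * δ := by gcongr
      _ = δ := one_mul _
  obtain ⟨x, hx⟩ : ∃ x, x = N * G * ρ := ⟨_, rfl⟩
  rw [← hx] at e1 e2 e3
  have hx0 : 0 < x := by rw [hx]; positivity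
  have hρx : ρ ≤ x := by
    rw [hx]
    exact le_mul_of_one_le_left hρ.le hNG
  have hGx : G * ρ ≤ x := by
    rw [hx]
    have : 0 ≤ G * ρ := by positivity
    calc G * ρ ≤ N * (G * ρ) := le_mul_of_one_le_left this hN1
      _ = _ := by ring
  -- the disc
  obtain ⟨r, hr⟩ : ∃ r, r = 32 * κ * ρ ^ 2 := ⟨_, rfl⟩
  have hr0 : 0 < r := by rw [hr]; positivity
  have hκx : κ * x ≤ κ ^ 2 * x := by
    have : κ ≤ κ ^ 2 := by nlinarith
    gcongr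
  have hAle : κ * N * (3 * G * (2 * r)) ≤ 3000 * κ ^ 2 * x / 10 := by
    have h5 : κ * N * (3 * G * (2 * r)) = 192 * κ ^ 2 * (x * ρ) := by rw [hr, hx]; ring
    have h6 : ρ ≤ 1 := by nlinarith
    rw [h5]
    have h7 : x * ρ ≤ x := mul_le_of_le_one_right hx0.le h6
    have h8 : 192 * κ ^ 2 * (x * ρ) ≤ 192 * κ ^ 2 * x := by gcongr
    have h9 : 0 ≤ κ ^ 2 * x := by positivity
    linarith
  refine ⟨r, hr0, fun c hc c' hc' j hj hdist => ?_⟩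
  have hS := small O hκ hκ2 hquad' hsep hN hG1 hG (s₀ := 2 * r)
    (by
      have h9 : 0 ≤ κ ^ 2 * x := by positivity
      linarith)
    (by
      have h9 : 0 < κ ^ 2 * x := by positivity
      linarith)
    (by
      have h5 : 36 * κ ^ 3 * N ^ 2 * G ^ 2 * (2 * r) = 2304 * (κ ^ 2 * x) ^ 2 := by
        rw [hr, hx]; ring
      rw [h5]
      have h6 : κ ^ 2 * x ≤ 1 / 3000 := by linarith
      have h9 : 0 ≤ κ ^ 2 * x := by positivity
      nlinarith) j hj c hc (2 * r) (by positivity) le_rfl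
  have hvv : ‖rf P Q c - rf P Q c‖ ≤ 2 * r := by rw [sub_self, norm_zero]; positivity
  intro w hw
  refine ⟨fun i hi => (hS w hw).1 i (by omega), ?_⟩
  have h5 := (hS w hw).2 _ hvv
  have h6 : ‖(rf P Q)^[j] w - c'‖ ≤ 2 * ρ := by
    have h7 := norm_add_le ((rf P Q)^[j] w - (rf P Q)^[j] (rf P Q c))
      ((rf P Q)^[j] (rf P Q c) - c')
    rw [sub_add_sub_cancel] at h7
    have h8 : 6 * G * (2 * r) = 384 * κ * (G * ρ) * ρ := by rw [hr]; ring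
    have h9 : 384 * κ * (G * ρ) ≤ 1 := by
      have : 384 * κ * (G * ρ) ≤ 384 * κ * x := by gcongr
      have : 0 ≤ κ ^ 2 * x := by positivity
      linarith
    have h10 : 384 * κ * (G * ρ) * ρ ≤ 1 * ρ := by gcongr
    linarith
  rw [Function.iterate_succ_apply']
  refine (hquad' c' hc' _ ?_).trans ?_
  · have : 0 ≤ κ ^ 2 * x := by positivity
    have h11 : x ≤ κ ^ 2 * x := by nlinarith
    linarith
  · calc κ * ‖(rf P Q)^[j] w - c'‖ ^ 2 ≤ κ * (2 * ρ) ^ 2 := by gcongr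
      _ = r / 8 := by rw [hr]; ring

/-- **No cycles of close passages.** -/
theorem acyc_N (O : Ma A d P Q U U₁) : ∃ C : ℝ, 1 ≤ C ∧ ∀ N : ℕ, 1 ≤ N → ∀ G : ℝ, 1 ≤ G →
    (∀ c ∈ Fa A P Q, ∀ n ≤ N, ‖deriv ((rf P Q)^[n]) (rf P Q c)‖ ≤ G) →
    ∀ ρ : ℝ, 0 < ρ → C * N * G * ρ ≤ 1 → ∀ (m : ℕ) (z : ℕ → ℂ), 0 < m → z m = z 0 →
      ¬ ∀ i < m, z i ∈ Fa A P Q ∧ ∃ j ≤ N, ‖(rf P Q)^[j] (rf P Q (z i)) - z (i + 1)‖ ≤ ρ := by
  obtain ⟨C, hC1, hC⟩ := passage O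
  refine ⟨C, hC1, fun N hN G hG1 hG ρ hρ hCρ m z hm hz hcyc => ?_⟩
  obtain ⟨r, hr, hstep⟩ := hC N hN G hG1 hG ρ hρ hCρ
  have hFr : ∀ i ≤ m, z i ∈ Fa A P Q := by
    intro i hi
    rcases Nat.lt_or_ge i m with h | h
    · exact (hcyc i h).1
    · have : i = m := by omega
      rw [this, hz]
      exact (hcyc 0 hm).1
  have key : ∀ i, i + 1 ≤ m → ∃ M : ℕ, 1 ≤ M ∧ ∀ w : ℂ, ‖w - rf P Q (z 0)‖ ≤ 2 * r →
      (∀ l < M, Q.eval ((rf P Q)^[l] w) ≠ 0) ∧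
        ‖(rf P Q)^[M] w - rf P Q (z (i + 1))‖ ≤ r / 8 := by
    intro i
    induction i with
    | zero =>
      intro hi
      obtain ⟨j, hj, hd'⟩ := (hcyc 0 hm).2
      exact ⟨j + 1, by omega, hstep _ (hFr 0 (by omega)) _ (hFr 1 hi) j hj hd'⟩
    | succ i ih =>
      intro hi
      obtain ⟨M, hM, h1⟩ := ih (by omega)
      obtain ⟨j, hj, hd'⟩ := (hcyc (i + 1) (by omega)).2
      refine ⟨M + (j + 1), by omega, fun w hw => ?_⟩
      obtain ⟨h2, h3⟩ := h1 w hw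
      obtain ⟨h4, h5⟩ := hstep _ (hFr (i + 1) (by omega)) _ (hFr (i + 1 + 1) hi) j hj hd'
        ((rf P Q)^[M] w) (by linarith)
      refine ⟨fun l hl => ?_, ?_⟩
      · rcases Nat.lt_or_ge l M with h | h
        · exact h2 l h
        · have h6 := h4 (l - M) (by omega)
          rwa [← Function.iterate_add_apply, Nat.sub_add_cancel h] at h6
      · rwa [← Function.iterate_add_apply, add_comm (j + 1) M] at h5
  obtain ⟨M, hM, h1⟩ := key (m - 1) (by omega)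
  rw [Nat.sub_add_cancel hm, hz] at h1
  have hc := hFr 0 (by omega)
  have hvv : ‖rf P Q (z 0) - rf P Q (z 0)‖ ≤ 2 * r := by rw [sub_self, norm_zero]; positivity
  have hb := (h1 _ hvv).2
  refine O.disc (rf P Q (z 0)) M r (O.nv hc 0) hM hr (fun w hw j hj => (h1 w hw).1 j hj)
    (fun w hw => ?_) (by linarith)
  have h5 := (h1 w hw).2
  have h6 := norm_sub_le ((rf P Q)^[M] w - rf P Q (z 0)) ((rf P Q)^[M] (rf P Q (z 0)) - rf P Q (z 0))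
  rw [sub_sub_sub_cancel_right] at h6
  linarith

/-- The Lipschitz bound and the absence of cycles of close passages, in the plane. -/
def TameL (K : ℝ) (A : ℂ → Prop) (P Q : ℂ[X]) : Prop := ∀ N : ℕ, 2 ≤ N →
  (∀ c ∈ Fa A P Q, ∀ w : ℂ, ‖w - rf P Q c‖ ≤ Real.exp (-(K * Real.log N ^ 2)) →
    (∀ j ≤ N, Q.eval ((rf P Q)^[j] w) ≠ 0) ∧
      ∀ w' : ℂ, ‖w' - rf P Q c‖ ≤ Real.exp (-(K * Real.log N ^ 2)) →
        ‖(rf P Q)^[N] w - (rf P Q)^[N] w'‖ ≤ Real.exp (K * Real.log N ^ 2) * ‖w - w'‖) ∧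
  ∀ (m : ℕ) (z : ℕ → ℂ), 0 < m → z m = z 0 →
    ¬ ∀ i < m, z i ∈ Fa A P Q ∧
      ∃ j ≤ N, ‖(rf P Q)^[j] (rf P Q (z i)) - z (i + 1)‖ ≤ Real.exp (-(K * Real.log N ^ 2))

/-- **The bounds for maps which are not approximated by maps with fewer free critical points.** -/
theorem tameL (O : Ma A d P Q U U₁) {D₀ : ℕ} (hna : Dir A d D₀ P Q U U₁) :
    ∃ K : ℝ, 0 ≤ K ∧ TameL K A P Q := by
  obtain ⟨B, K₀, hB, hK₀, hG⟩ := gbound O hna
  obtain ⟨C₁, hC₁, h1⟩ := lip_N O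
  obtain ⟨C₂, hC₂, h2⟩ := acyc_N O
  have hB0 : 0 ≤ B := by linarith
  obtain ⟨K₁, hK₁⟩ := absorb (C := 12 * B) (by linarith) K₀ 0 1
  obtain ⟨K₂, hK₂⟩ := absorb (C := C₁ * B ^ 2)
    (one_le_mul_of_one_le_of_one_le hC₁ (one_le_pow₀ hB)) K₀ 2 2
  obtain ⟨K₃, hK₃⟩ := absorb (C := C₂ * B) (one_le_mul_of_one_le_of_one_le hC₂ hB) K₀ 1 1
  obtain ⟨K, hK⟩ : ∃ K, K = max (max 0 K₁) (max K₂ K₃) := ⟨_, rfl⟩
  have hKK₀ : 0 ≤ K := by rw [hK]; exact (le_max_left _ _).trans (le_max_left _ _)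
  have hKK₁ : K₁ ≤ K := by rw [hK]; exact (le_max_right _ _).trans (le_max_left _ _)
  have hKK₂ : K₂ ≤ K := by rw [hK]; exact (le_max_left _ _).trans (le_max_right _ _)
  have hKK₃ : K₃ ≤ K := by rw [hK]; exact (le_max_right _ _).trans (le_max_right _ _)
  refine ⟨K, hKK₀, fun N hN => ?_⟩
  have hexp1 : 1 ≤ B * Real.exp (K₀ * Real.log N ^ 2) :=
    one_le_mul_of_one_le_of_one_le hB (Real.one_le_exp (by positivity))
  have ee : Real.exp (K * Real.log N ^ 2) * Real.exp (-(K * Real.log N ^ 2)) = 1 := by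
    rw [← Real.exp_add, add_neg_cancel, Real.exp_zero]
  have g1 : 12 * (B * Real.exp (K₀ * Real.log N ^ 2)) ≤ Real.exp (K * Real.log N ^ 2) := by
    have h3 := hK₁ N hN
    rw [pow_zero, mul_one, pow_one] at h3
    calc 12 * (B * Real.exp (K₀ * Real.log N ^ 2)) = 12 * B * Real.exp (K₀ * Real.log N ^ 2) := by
          ring
      _ ≤ _ := h3
      _ ≤ _ := Real.exp_le_exp.2 (by gcongr)
  have g2 : C₁ * N ^ 2 * (B * Real.exp (K₀ * Real.log N ^ 2)) ^ 2 *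
      Real.exp (-(K * Real.log N ^ 2)) ≤ 1 := by
    have h3 := (hK₂ N hN).trans (Real.exp_le_exp.2
      (by gcongr : K₂ * Real.log N ^ 2 ≤ K * Real.log N ^ 2))
    calc _ = (C₁ * B ^ 2 * N ^ 2 * Real.exp (K₀ * Real.log N ^ 2) ^ 2) *
          Real.exp (-(K * Real.log N ^ 2)) := by ring
      _ ≤ Real.exp (K * Real.log N ^ 2) * Real.exp (-(K * Real.log N ^ 2)) := by gcongr
      _ = 1 := ee
  have g3 : C₂ * N * (B * Real.exp (K₀ * Real.log N ^ 2)) *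
      Real.exp (-(K * Real.log N ^ 2)) ≤ 1 := by
    have h3 := (hK₃ N hN).trans (Real.exp_le_exp.2
      (by gcongr : K₃ * Real.log N ^ 2 ≤ K * Real.log N ^ 2))
    rw [pow_one, pow_one] at h3
    calc _ = (C₂ * B * N * Real.exp (K₀ * Real.log N ^ 2)) *
          Real.exp (-(K * Real.log N ^ 2)) := by ring
      _ ≤ Real.exp (K * Real.log N ^ 2) * Real.exp (-(K * Real.log N ^ 2)) := by gcongr
      _ = 1 := ee
  refine ⟨fun c hc w hw => ?_, h2 N (by omega) _ hexp1 (hG N hN) _ (Real.exp_pos _) g3⟩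
  obtain ⟨h3, h4⟩ := h1 N (by omega) _ hexp1 (hG N hN) c hc _ (Real.exp_pos _) g2 w hw
  refine ⟨h3, fun w' hw' => (h4 w' hw').trans ?_⟩
  gcongr

end Pool.Agent.Zk29.Po
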