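import Pool.Agent.Zk29.Po.S1
import Pool.Agent.Zk29.Mu.S4
import Pool.Agent.Zk29.Po.E

/-!
# The bounds in the chordal metric, general form
-/

set_option autoImplicit false
open Set Filter Topology Metric Polynomial
open scoped OnePoint

namespace Pool.Agent.Zk29.Po

open Pool.Agent.H792R2.CE Pool.Agent.H792R2.CE.C2x Pool.Agent.Zk29.Rat
open Pool.Agent.Helper114.Herman
open Pool.Agent.H713R5.QJ (ev Good opg_holds)
open Pool.Agent.Zk29.Mu (chord chord_nonneg chord_le_dist dist_le_chord near_of_chord Slo kA kA_le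
  kA_le' chord_cont2)

variable {A : ℂ → Prop} {d : ℕ} {P Q : ℂ[X]} {U U₁ : Set ℂ} {K : ℝ}

/-- The bounds for a normalised map in the chordal metric. -/
theorem slo_ma (O : Ma A d P Q U U₁) {R : ℝ} (hR0 : 0 ≤ R)
    (hR : ∀ z : ℂ, ¬ A z → ‖z‖ ≤ R) (hK0 : 0 ≤ K) (hK : TameL K A P Q) :
    Slo (kA (1 + (R + 1) ^ 2) K) (sph d P Q) ((fun z : ℂ => (z : OnePoint ℂ)) '' Fa A P Q) := by
  obtain ⟨B₀, hA⟩ : ∃ B₀, B₀ = 1 + (R + 1) ^ 2 := ⟨_, rfl⟩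
  have hA1 : 1 ≤ B₀ := by
    rw [hA]
    have : (0 : ℝ) ≤ (R + 1) ^ 2 := sq_nonneg _
    linarith
  rw [← hA]
  have hq : ∀ z ∈ Fa A P Q, ∀ i : ℕ, Q.eval ((rf P Q)^[i] z) ≠ 0 := fun z hz i => (O.it hz.2 i).2
  have hqv : ∀ z ∈ Fa A P Q, ∀ i : ℕ, Q.eval ((rf P Q)^[i] (rf P Q z)) ≠ 0 := by
    intro z hz i
    have := hq z hz (i + 1)
    rwa [Function.iterate_succ_apply] at this
  have hna : ∀ z ∈ Fa A P Q, ∀ i : ℕ, ‖(rf P Q)^[i] z‖ ≤ R := fun z hz i =>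
    hR _ (O.it hz.2 i).1
  have hcv : ∀ z ∈ Fa A P Q, sph d P Q (z : OnePoint ℂ) = ((rf P Q z : ℂ) : OnePoint ℂ) :=
    fun z hz => sph_coe_of_ne (hq z hz 0)
  intro n hn
  obtain ⟨h1, h2⟩ := hK n hn
  have g1 := kA_le (K := K) hA1 hn
  have g2 := kA_le' (K := K) hA1 hn
  obtain ⟨M', hM'⟩ : ∃ M', M' = Real.exp (kA B₀ K * Real.log n ^ 2) := ⟨_, rfl⟩
  obtain ⟨M, hM⟩ : ∃ M, M = Real.exp (K * Real.log n ^ 2) := ⟨_, rfl⟩
  obtain ⟨σ', hσ'⟩ : ∃ σ', σ' = Real.exp (-(kA B₀ K * Real.log n ^ 2)) := ⟨_, rfl⟩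
  obtain ⟨σ, hσ⟩ : ∃ σ, σ = Real.exp (-(K * Real.log n ^ 2)) := ⟨_, rfl⟩
  have hM0 : 0 < M := by rw [hM]; exact Real.exp_pos _
  have hσ1 : σ ≤ 1 := by
    rw [hσ, Real.exp_le_one_iff]
    have : 0 ≤ K * Real.log n ^ 2 := by positivity
    linarith
  rw [← hM, ← hM'] at g1
  rw [← hσ, ← hσ'] at g2
  rw [← hσ, ← hM] at h1
  rw [← hσ] at h2
  rw [← hM', ← hσ']
  have hA0 : 0 < B₀ := by linarith
  have hσB₀ : σ' ≤ 1 / B₀ := by
    rw [le_div_iff₀ hA0]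
    linarith
  constructor
  · rintro _ ⟨z, hz, rfl⟩ x y hx hy
    have hv : ‖rf P Q z‖ ≤ R := hna z hz 1
    have hnear : ∀ x : OnePoint ℂ, chord x (sph d P Q (z : OnePoint ℂ)) < σ' →
        ∃ u : ℂ, x = (u : OnePoint ℂ) ∧ ‖u‖ ≤ R + 1 ∧ ‖u - rf P Q z‖ ≤ σ := by
      intro x hx
      rw [hcv z hz] at hx
      obtain ⟨u, hu1, hu2, hu3⟩ := near_of_chord hR0 hv (by rw [← hA]; exact hx.trans_le hσB₀)
      refine ⟨u, hu1, hu2, hu3.trans ?_⟩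
      rw [← hA]
      refine le_trans ?_ g2
      gcongr
    obtain ⟨u, rfl, hu2, hu3⟩ := hnear x hx
    obtain ⟨u', rfl, hu2', hu3'⟩ := hnear y hy
    obtain ⟨k1, k2⟩ := h1 z hz u hu3
    obtain ⟨k1', -⟩ := h1 z hz u' hu3'
    have k3 := k2 u' hu3'
    rw [iter_coe n fun j hj => k1 j hj.le, iter_coe n fun j hj => k1' j hj.le]
    calc chord (((rf P Q)^[n] u : ℂ) : OnePoint ℂ) (((rf P Q)^[n] u' : ℂ) : OnePoint ℂ)
        ≤ ‖(rf P Q)^[n] u - (rf P Q)^[n] u'‖ := chord_le_dist _ _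
      _ ≤ M * ‖u - u'‖ := k3
      _ ≤ M * ((1 + (R + 1) ^ 2) * chord (u : OnePoint ℂ) (u' : OnePoint ℂ)) := by
          gcongr
          exact dist_le_chord hu2 hu2'
      _ = B₀ * M * chord (u : OnePoint ℂ) (u' : OnePoint ℂ) := by rw [hA]; ring
      _ ≤ M' * chord (u : OnePoint ℂ) (u' : OnePoint ℂ) :=
          mul_le_mul_of_nonneg_right g1 (chord_nonneg _ _)
  · intro m c hm hcc hall
    have hex : ∀ i, ∃ z : ℂ, i ≤ m → z ∈ Fa A P Q ∧ (z : OnePoint ℂ) = c i := by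
      intro i
      by_cases hi : i ≤ m
      · rcases Nat.lt_or_ge i m with h3 | h3
        · obtain ⟨⟨z, hz, hz'⟩, -⟩ := hall i h3
          exact ⟨z, fun _ => ⟨hz, hz'⟩⟩
        · have h4 : i = m := by omega
          obtain ⟨⟨z, hz, hz'⟩, -⟩ := hall 0 hm
          exact ⟨z, fun _ => ⟨hz, by rw [h4, hcc]; exact hz'⟩⟩
      · exact ⟨0, fun h3 => absurd h3 hi⟩
    choose z hz using hex
    refine h2 m z hm ?_ fun i hi => ?_
    · apply OnePoint.coe_injective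
      rw [(hz m le_rfl).2, (hz 0 (by omega)).2, hcc]
    · obtain ⟨hzi, hzi'⟩ := hz i hi.le
      obtain ⟨hzj, hzj'⟩ := hz (i + 1) hi
      obtain ⟨-, j, hj, hj'⟩ := hall i hi
      refine ⟨hzi, j, hj, ?_⟩
      rw [← hzi', ← hzj', hcv _ hzi, iter_coe j fun k _ => hqv _ hzi k] at hj'
      have hb1 : ‖(rf P Q)^[j] (rf P Q (z i))‖ ≤ R := by
        have := hna _ hzi (j + 1)
        rwa [Function.iterate_succ_apply] at this
      have hb2 := dist_le_chord (hb1.trans (by linarith : R ≤ R + 1))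
        ((hna _ hzj 0).trans (by linarith : R ≤ R + 1))
      rw [Function.iterate_zero_apply] at hb2
      refine hb2.trans (le_trans ?_ g2)
      rw [← hA]
      gcongr

end Pool.Agent.Zk29.Po
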