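import Pool.Agent.Zk29.Po.S2

/-!
# Density in the space of polynomials with locally uniform bounds
-/

set_option autoImplicit false

open Filter Topology Metric Set Polynomial
open scoped OnePoint

namespace Pool.Agent.Zk29.Po

open Pool.Agent.H792R2.CE Pool.Agent.H792R2.CE.C2x Pool.Agent.Zk29.Rat
open Pool.Agent.Helper114.Herman
open Pool.Agent.H713R5.QJ (ev Good opg_holds)
open Pool.Agent.Zk29.Mu (chord chord_nonneg chord_le_dist dist_le_chord near_of_chord Slo kA kA_le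
  kA_le' chord_cont2)

variable {d : ℕ} {T : ℂ[X]}

/-- The free critical points in the plane, as points of the sphere. -/
def FpC (T : ℂ[X]) : Set (OnePoint ℂ) := (fun z : ℂ => (z : OnePoint ℂ)) '' Fp T

lemma Fp_fin (hT : 2 ≤ T.natDegree) : (Fp T).Finite := by
  have h0 : derivative T ≠ 0 := by
    intro h
    have := derivative_eq_zero.1 h
    omega
  refine Set.Finite.subset ((derivative T).roots.toFinset.finite_toSet) fun z hz => ?_
  simp [h0, hz.1]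

lemma pl_add (a b : Fin (d + 1) → ℂ) : pl (a + b) = pl a + pl b := Pool.Agent.Zk29.Mu.pl_add a b

lemma pl_coeff (a : Fin (d + 1) → ℂ) (k : ℕ) :
    (pl a).coeff k = if h : k < d + 1 then a ⟨k, h⟩ else 0 := Pool.Agent.Zk29.Mu.pl_coeff a k

lemma pl_zero : pl (0 : Fin (d + 1) → ℂ) = 0 := Pool.Agent.Zk29.Mu.pl_zero

/-- Polynomials which are not approximated by polynomials with fewer free critical points. -/
theorem slo_of_notP (hR : S_REG) (hF : S_FAM) (hS : S_SPD) (hC : S_CPT) (hd : 2 ≤ T.natDegree)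
    (hs : Sim T) (hna : ¬ FewP T) : ∃ K : ℝ, Slo K (sph T.natDegree T 1) (FpC T) := by
  obtain ⟨U, U₁, O⟩ := hR T hd hs
  have hD : Dir (Good (ev T)) T.natDegree (T.natDegree - 2) T 1 U U₁ := by
    refine ⟨?_, fun k hk => ?_⟩
    · filter_upwards [gen_ae O.dat] with x hx
      exact hS T _ hd rfl x hx
    · obtain ⟨r, τ, F⟩ := hF T U U₁ O hna k (by omega)
      exact ⟨X ^ k, 0, r, τ, by simp, F⟩
  obtain ⟨K, hK0, hK⟩ := tameL O hD
  obtain ⟨R, hRb⟩ := (hC T hd).isBounded.exists_norm_le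
  have h1 := slo_ma O (R := max 0 R) (le_max_left _ _)
    (fun z hz => (hRb z hz).trans (le_max_right _ _)) hK0 hK
  rw [Fa_one] at h1
  exact ⟨_, h1⟩

/-- The bijection between the free critical points of nearby maps. -/
lemma bij_nearP (hN : S_NEAR) (hd : 2 ≤ d) (hT : T.natDegree = d) (hs : Sim T) {ρ : ℝ}
    (hρ : 0 < ρ) :
    ∀ᶠ b : Fin (d + 1) → ℂ in 𝓝 0, (Fp (T + pl b)).ncard = (Fp T).ncard →
      ∃ φ : ℂ → ℂ, ∀ z ∈ Fp T, φ z ∈ Fp (T + pl b) ∧ ‖φ z - z‖ < ρ := by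
  filter_upwards [hN d T hd hT hs ρ hρ] with b h6 hcb
  obtain ⟨-, -, g, hg1, hg2⟩ := h6
  have hfin : (Fp T).Finite := Fp_fin (by omega)
  have himg : g '' Fp (T + pl b) = Fp T := by
    apply Set.eq_of_subset_of_ncard_le
    · rintro _ ⟨z, hz, rfl⟩
      exact (hg1 z hz).1
    · rw [hg2.ncard_image, hcb]
    · exact hfin
  have hex : ∀ z ∈ Fp T, ∃ u, u ∈ Fp (T + pl b) ∧ g u = z := by
    intro z hz
    rw [← himg] at hz
    obtain ⟨u, hu, hu'⟩ := hz
    exact ⟨u, hu, hu'⟩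
  choose! φ hφ using hex
  refine ⟨φ, fun z hz => ⟨(hφ z hz).1, ?_⟩⟩
  have h1 := (hg1 _ (hφ z hz).1).2
  rwa [(hφ z hz).2] at h1

/-- Upper semicontinuity. -/
lemma uscP (hN : S_NEAR) (hd : 2 ≤ d) (hT : T.natDegree = d) (hs : Sim T) :
    ∀ᶠ b : Fin (d + 1) → ℂ in 𝓝 0, (T + pl b).natDegree = d ∧ Sim (T + pl b) ∧
      (Fp (T + pl b)).ncard ≤ (Fp T).ncard := by
  filter_upwards [hN d T hd hT hs 1 one_pos] with b h
  obtain ⟨h1, h2, g, hg1, hg2⟩ := h
  refine ⟨h1, h2, ?_⟩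
  exact Set.ncard_le_ncard_of_injOn g (fun z hz => (hg1 z hz).1) hg2 (Fp_fin (by omega))

/-- The open set of maps which are not approximated by maps with fewer free critical points. -/
theorem dense_nfP (hN : S_NEAR) (hI : S_NICE) (hd : 2 ≤ d) (hT : T.natDegree = d) {ε : ℝ}
    (hε : 0 < ε) :
    ∃ (b₀ : Fin (d + 1) → ℂ) (n₀ : ℕ), ‖b₀‖ < ε ∧ ∀ᶠ b : Fin (d + 1) → ℂ in 𝓝 b₀,
      (T + pl b).natDegree = d ∧ Sim (T + pl b) ∧ (Fp (T + pl b)).ncard = n₀ ∧ ‖b‖ < ε ∧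
      ¬ FewP (T + pl b) := by
  classical
  have hex : ∃ n : ℕ, ∃ b : Fin (d + 1) → ℂ, ‖b‖ < ε ∧ (T + pl b).natDegree = d ∧
      Sim (T + pl b) ∧ (Fp (T + pl b)).ncard = n := by
    obtain ⟨b, hb1, hb2, hb3⟩ := hI d T hd hT ε hε
    exact ⟨_, b, hb1, hb2, hb3, rfl⟩
  obtain ⟨b₀, hb₀, hdeg, hnice, hcard⟩ := Nat.find_spec hex
  obtain ⟨n₀, hn₀⟩ : ∃ n₀, n₀ = Nat.find hex := ⟨_, rfl⟩
  rw [← hn₀] at hcard
  have hmin : ∀ b : Fin (d + 1) → ℂ, ‖b‖ < ε → (T + pl b).natDegree = d → Sim (T + pl b) →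
      n₀ ≤ (Fp (T + pl b)).ncard := by
    intro b h1 h2 h3
    rw [hn₀]
    exact Nat.find_min' hex ⟨b, h1, h2, h3, rfl⟩
  refine ⟨b₀, n₀, hb₀, ?_⟩
  have h1 := uscP hN hd hdeg hnice
  have h2 : Tendsto (fun b : Fin (d + 1) → ℂ => b - b₀) (𝓝 b₀) (𝓝 0) := by
    have h3 : Continuous (fun b : Fin (d + 1) → ℂ => b - b₀) := continuous_id.sub continuous_const
    have h4 := h3.tendsto b₀
    simpa using h4
  have h5 : ∀ᶠ b : Fin (d + 1) → ℂ in 𝓝 b₀, ‖b‖ < ε :=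
    (continuous_norm.tendsto b₀).eventually (Iio_mem_nhds hb₀)
  filter_upwards [h2.eventually h1, h5] with b h6 h7
  have e1 : T + pl b₀ + pl (b - b₀) = T + pl b := by
    rw [add_assoc, ← pl_add, add_sub_cancel]
  rw [e1, hcard] at h6
  obtain ⟨hdb, hnb, hcb⟩ := h6
  refine ⟨hdb, hnb, le_antisymm hcb (hmin b h7 hdb hnb), h7, ?_⟩
  intro hfew
  obtain ⟨S, hSd, hSs, hclose, hlt⟩ := hfew (ε - ‖b‖) (by linarith)
  rw [hdb] at hSd
  obtain ⟨b', hb'⟩ : ∃ b' : Fin (d + 1) → ℂ, b' = b +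
    (fun i : Fin (d + 1) => S.coeff i - (T + pl b).coeff i) := ⟨_, rfl⟩
  have hb'n : ‖b'‖ < ε := by
    rw [hb']
    refine lt_of_le_of_lt (norm_add_le _ _) ?_
    have h8 : ‖(fun i : Fin (d + 1) => S.coeff i - (T + pl b).coeff i)‖ < ε - ‖b‖ := by
      rw [pi_norm_lt_iff (by linarith)]
      exact fun j => hclose j
    linarith
  have e3 : T + pl b' = S := by
    rw [hb', pl_add, ← add_assoc]
    ext k
    rw [coeff_add, pl_coeff]
    split_ifs with h8
    · simp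
    · rw [add_zero, coeff_eq_zero_of_natDegree_lt (p := S) (by omega),
        coeff_eq_zero_of_natDegree_lt (by omega)]
  have h9 := hmin b' hb'n (by rw [e3]; exact hSd) (by rw [e3]; exact hSs)
  rw [e3] at h9
  omega

/-- The set of maps which are not slow is open where the number of free critical points is
constant. -/
theorem not_slo_openP (hN : S_NEAR) (hJ : S_JOINT) (hd : 2 ≤ d) (hT : T.natDegree = d)
    (hs : Sim T) {K : ℝ} (hns : ¬ Slo K (sph d T 1) (FpC T)) :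
    ∀ᶠ b : Fin (d + 1) → ℂ in 𝓝 0, (Fp (T + pl b)).ncard = (Fp T).ncard →
      ¬ Slo K (sph d (T + pl b) 1) (FpC (T + pl b)) := by
  have e1 : T + pl (0 : Fin (d + 1) → ℂ) = T := by rw [pl_zero, add_zero]
  have hjc : ∀ (n : ℕ) (z : ℂ), ContinuousAt (fun p : (Fin (d + 1) → ℂ) × ℂ =>
      (sph d (T + pl p.1) 1)^[n] (p.2 : OnePoint ℂ)) (0, z) := by
    intro n z
    have h1 := hJ d T hd hT n (z : OnePoint ℂ)
    have h2 : Continuous (fun p : (Fin (d + 1) → ℂ) × ℂ => (p.1, (p.2 : OnePoint ℂ))) :=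
      continuous_fst.prodMk (OnePoint.continuous_coe.comp continuous_snd)
    exact ContinuousAt.comp (f := fun p : (Fin (d + 1) → ℂ) × ℂ => (p.1, (p.2 : OnePoint ℂ)))
      (x := ((0 : Fin (d + 1) → ℂ), z)) h1 h2.continuousAt
  unfold Slo at hns
  push Not at hns
  obtain ⟨n, hn, hns⟩ := hns
  by_cases hA : ∀ c ∈ FpC T, ∀ x y : OnePoint ℂ,
      chord x (sph d T 1 c) < Real.exp (-(K * Real.log n ^ 2)) →
      chord y (sph d T 1 c) < Real.exp (-(K * Real.log n ^ 2)) →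
      chord ((sph d T 1)^[n] x) ((sph d T 1)^[n] y) ≤ Real.exp (K * Real.log n ^ 2) * chord x y
  swap
  · push Not at hA
    obtain ⟨c, ⟨w, hw, rfl⟩, x, y, hx, hy, hxy⟩ := hA
    simp only at hx hy
    -- the open conditions
    have hjx : ∀ x : OnePoint ℂ, ContinuousAt (fun b : Fin (d + 1) → ℂ =>
        (sph d (T + pl b) 1)^[n] x) 0 := by
      intro x
      have h1 := hJ d T hd hT n x
      have h2 : Continuous (fun b : Fin (d + 1) → ℂ => (b, x)) :=
        continuous_id.prodMk continuous_const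
      exact ContinuousAt.comp (f := fun b : Fin (d + 1) → ℂ => (b, x))
        (x := (0 : Fin (d + 1) → ℂ)) h1 h2.continuousAt
    have c1 : ContinuousAt (fun b : Fin (d + 1) → ℂ => chord ((sph d (T + pl b) 1)^[n] x)
        ((sph d (T + pl b) 1)^[n] y)) 0 :=
      ContinuousAt.comp (g := fun p : OnePoint ℂ × OnePoint ℂ => chord p.1 p.2)
        (f := fun b : Fin (d + 1) → ℂ => ((sph d (T + pl b) 1)^[n] x,
          (sph d (T + pl b) 1)^[n] y)) (x := (0 : Fin (d + 1) → ℂ))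
        chord_cont2.continuousAt ((hjx x).prodMk (hjx y))
    have hev1 : ∀ᶠ b : Fin (d + 1) → ℂ in 𝓝 0, Real.exp (K * Real.log n ^ 2) * chord x y <
        chord ((sph d (T + pl b) 1)^[n] x) ((sph d (T + pl b) 1)^[n] y) := by
      apply c1.eventually_const_lt
      simp only [e1]
      exact hxy
    have hj1 : ∀ x : OnePoint ℂ, ContinuousAt (fun p : (Fin (d + 1) → ℂ) × ℂ =>
        chord x (sph d (T + pl p.1) 1 (p.2 : OnePoint ℂ))) (0, w) := by
      intro x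
      have h1 := hjc 1 w
      simp only [Function.iterate_one] at h1
      exact ContinuousAt.comp (g := fun p : OnePoint ℂ × OnePoint ℂ => chord p.1 p.2)
        (f := fun p : (Fin (d + 1) → ℂ) × ℂ => (x, sph d (T + pl p.1) 1 (p.2 : OnePoint ℂ)))
        (x := ((0 : Fin (d + 1) → ℂ), w)) chord_cont2.continuousAt (continuousAt_const.prodMk h1)
    have hev2 : ∀ x : OnePoint ℂ, chord x (sph d T 1 (w : OnePoint ℂ)) <
        Real.exp (-(K * Real.log n ^ 2)) → ∀ᶠ p : (Fin (d + 1) → ℂ) × ℂ in 𝓝 (0, w),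
        chord x (sph d (T + pl p.1) 1 (p.2 : OnePoint ℂ)) <
          Real.exp (-(K * Real.log n ^ 2)) := by
      intro x hx
      apply (hj1 x).eventually_lt_const
      simp only [e1]
      exact hx
    obtain ⟨ρ, hρ, h2⟩ := Metric.eventually_nhds_iff.1 ((hev2 x hx).and (hev2 y hy))
    have h5 : ∀ᶠ e : Fin (d + 1) → ℂ in 𝓝 0, ‖e‖ < ρ := by
      have h6 : ‖(0 : Fin (d + 1) → ℂ)‖ < ρ := by rw [norm_zero]; exact hρ
      exact (continuous_norm.tendsto (0 : Fin (d + 1) → ℂ)).eventually (Iio_mem_nhds h6)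
    filter_upwards [bij_nearP hN hd hT hs hρ, hev1, h5] with b k1 k2 k3 hcb
    obtain ⟨φ, hφ⟩ := k1 hcb
    obtain ⟨k4, k5⟩ := hφ w hw
    obtain ⟨k6, k7⟩ := h2 (y := (b, φ w)) (by
      rw [Prod.dist_eq, max_lt_iff]
      exact ⟨by rwa [dist_zero_right], by rwa [dist_eq_norm]⟩)
    intro hS
    have := (hS n hn).1 _ ⟨φ w, k4, rfl⟩ x y k6 k7
    linarith
  · obtain ⟨m, c, hm, hcc, hall⟩ := hns hA
    have hex : ∀ i, ∃ z : ℂ, i ≤ m → z ∈ Fp T ∧ (z : OnePoint ℂ) = c i := by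
      intro i
      by_cases hi : i ≤ m
      · rcases Nat.lt_or_ge i m with h3 | h3
        · obtain ⟨⟨z, hz, hz'⟩, -⟩ := hall i h3
          exact ⟨z, fun _ => ⟨hz, hz'⟩⟩
        · have h4 : i = m := by omega
          obtain ⟨⟨z, hz, hz'⟩, -⟩ := hall 0 hm
          exact ⟨z, fun _ => ⟨hz, by rw [h4, hcc]; exact hz'⟩⟩
      · exact ⟨0, fun h3 => absurd h3 hi⟩
    choose z hz using hex
    have hzm : z m = z 0 := by
      apply OnePoint.coe_injective
      rw [(hz m le_rfl).2, (hz 0 (by omega)).2, hcc]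
    -- the open conditions
    have hev : ∀ i ∈ Finset.range m, ∀ᶠ ρ : ℝ in 𝓝[>] 0, ∀ (b : Fin (d + 1) → ℂ) (u u' : ℂ),
        ‖b‖ < ρ → ‖u - z i‖ < ρ → ‖u' - z (i + 1)‖ < ρ → ∃ j ≤ n,
        chord ((sph d (T + pl b) 1)^[j] (sph d (T + pl b) 1 (u : OnePoint ℂ)))
          (u' : OnePoint ℂ) < Real.exp (-(K * Real.log n ^ 2)) := by
      intro i hi
      have hi' : i < m := Finset.mem_range.1 hi
      obtain ⟨-, j, hj, hj'⟩ := hall i hi'
      rw [← (hz i hi'.le).2, ← (hz (i + 1) hi').2] at hj'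
      have h1 : ContinuousAt (fun p : ((Fin (d + 1) → ℂ) × ℂ) × ℂ =>
          (sph d (T + pl p.1.1) 1)^[j + 1] (p.1.2 : OnePoint ℂ))
          (((0 : Fin (d + 1) → ℂ), z i), z (i + 1)) :=
        ContinuousAt.comp (g := fun p : (Fin (d + 1) → ℂ) × ℂ =>
          (sph d (T + pl p.1) 1)^[j + 1] (p.2 : OnePoint ℂ))
          (f := fun p : ((Fin (d + 1) → ℂ) × ℂ) × ℂ => p.1)
          (x := (((0 : Fin (d + 1) → ℂ), z i), z (i + 1)))
          (hjc (j + 1) (z i)) continuousAt_fst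
      have h2 : ContinuousAt (fun p : ((Fin (d + 1) → ℂ) × ℂ) × ℂ => (p.2 : OnePoint ℂ))
          (((0 : Fin (d + 1) → ℂ), z i), z (i + 1)) :=
        (OnePoint.continuous_coe.comp continuous_snd).continuousAt
      have h3 : ContinuousAt (fun p : ((Fin (d + 1) → ℂ) × ℂ) × ℂ => chord
          ((sph d (T + pl p.1.1) 1)^[j + 1] (p.1.2 : OnePoint ℂ))
          (p.2 : OnePoint ℂ)) (((0 : Fin (d + 1) → ℂ), z i), z (i + 1)) :=
        ContinuousAt.comp (g := fun p : OnePoint ℂ × OnePoint ℂ => chord p.1 p.2)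
          (f := fun p : ((Fin (d + 1) → ℂ) × ℂ) × ℂ =>
            ((sph d (T + pl p.1.1) 1)^[j + 1] (p.1.2 : OnePoint ℂ),
              (p.2 : OnePoint ℂ))) (x := (((0 : Fin (d + 1) → ℂ), z i), z (i + 1)))
          chord_cont2.continuousAt (h1.prodMk h2)
      have h4 : ∀ᶠ p : ((Fin (d + 1) → ℂ) × ℂ) × ℂ in 𝓝 (((0 : Fin (d + 1) → ℂ), z i), z (i + 1)),
          chord ((sph d (T + pl p.1.1) 1)^[j + 1] (p.1.2 : OnePoint ℂ))
          (p.2 : OnePoint ℂ) < Real.exp (-(K * Real.log n ^ 2)) := by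
        apply h3.eventually_lt_const
        simp only [e1]
        rw [Function.iterate_succ_apply]
        exact hj'
      obtain ⟨ρ₀, hρ₀, h5⟩ := Metric.eventually_nhds_iff.1 h4
      have h6 : ∀ᶠ ρ : ℝ in 𝓝[>] 0, ρ < ρ₀ :=
        mem_nhdsWithin_of_mem_nhds (Iio_mem_nhds hρ₀)
      filter_upwards [h6] with ρ hρ b u u' k1 k2 k3
      refine ⟨j, hj, ?_⟩
      have h7 := h5 (y := ((b, u), u')) (by
        rw [Prod.dist_eq, Prod.dist_eq, max_lt_iff, max_lt_iff]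
        refine ⟨⟨?_, ?_⟩, ?_⟩
        · rw [dist_zero_right]
          exact k1.trans hρ
        · rw [dist_eq_norm]
          exact k2.trans hρ
        · rw [dist_eq_norm]
          exact k3.trans hρ)
      rw [Function.iterate_succ_apply] at h7
      exact h7
    obtain ⟨ρ, hρev, hρ0⟩ := (((Filter.eventually_all_finset (Finset.range m)).2 hev).and
      self_mem_nhdsWithin).exists
    have hρ : 0 < ρ := hρ0
    have h5 : ∀ᶠ e : Fin (d + 1) → ℂ in 𝓝 0, ‖e‖ < ρ := by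
      have h6 : ‖(0 : Fin (d + 1) → ℂ)‖ < ρ := by rw [norm_zero]; exact hρ
      exact (continuous_norm.tendsto (0 : Fin (d + 1) → ℂ)).eventually (Iio_mem_nhds h6)
    filter_upwards [bij_nearP hN hd hT hs hρ, h5] with b k1 k3 hcb
    obtain ⟨φ, hφ⟩ := k1 hcb
    intro hS
    refine (hS n hn).2 m (fun i => (φ (z i) : OnePoint ℂ)) hm (by simp only [hzm])
      fun i hi => ⟨?_, ?_⟩
    · exact ⟨φ (z i), (hφ _ (hz i hi.le).1).1, rfl⟩
    · exact hρev i (Finset.mem_range.2 hi) b _ _ k3 (hφ _ (hz i hi.le).1).2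
        (hφ _ (hz (i + 1) hi).1).2

/-- **The interior of the set of slow polynomials is dense; locally uniform version.** -/
theorem dense_unif3P (hR : S_REG) (hF : S_FAM) (hSP : S_SPD) (hC : S_CPT) (hN : S_NEAR)
    (hI : S_NICE) (hJ : S_JOINT) (hd : 2 ≤ d) (hT : T.natDegree = d) {ε : ℝ} (hε : 0 < ε) :
    ∃ (b₁ : Fin (d + 1) → ℂ) (K : ℝ), ‖b₁‖ < ε ∧ ∀ᶠ b : Fin (d + 1) → ℂ in 𝓝 b₁,
      (T + pl b).natDegree = d ∧ Sim (T + pl b) ∧
      Slo K (sph d (T + pl b) 1) (FpC (T + pl b)) := by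
  classical
  obtain ⟨b₀, n₀, hb₀, hev⟩ := dense_nfP hN hI hd hT hε
  obtain ⟨r, hr, hball⟩ := Metric.eventually_nhds_iff_ball.1 hev
  obtain ⟨F, hFe⟩ : ∃ F : ℕ → Set (Fin (d + 1) → ℂ), F = fun K : ℕ => {b | b ∈ ball b₀ r →
    Slo (K : ℝ) (sph d (T + pl b) 1) (FpC (T + pl b))} := ⟨_, rfl⟩
  have hFc : ∀ K, IsClosed (F K) := by
    intro K
    rw [← isOpen_compl_iff, isOpen_iff_mem_nhds]
    intro b hb
    rw [hFe, mem_compl_iff, mem_ofPred_eq] at hb
    push Not at hb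
    obtain ⟨hbB, hns⟩ := hb
    obtain ⟨hdb, hnb, hcb, -, -⟩ := hball b hbB
    have h4 : Tendsto (fun b' : Fin (d + 1) → ℂ => b' - b) (𝓝 b) (𝓝 0) := by
      have h5 : Continuous (fun b' : Fin (d + 1) → ℂ => b' - b) :=
        continuous_id.sub continuous_const
      have h6 := h5.tendsto b
      simpa using h6
    filter_upwards [h4.eventually (not_slo_openP hN hJ hd hdb hnb hns),
      isOpen_ball.mem_nhds hbB] with b' h6 h8
    have e1 : T + pl b + pl (b' - b) = T + pl b' := by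
      rw [add_assoc, ← pl_add, add_sub_cancel]
    rw [e1] at h6
    obtain ⟨-, -, hcb', -, -⟩ := hball b' h8
    rw [hFe, mem_compl_iff, mem_ofPred_eq]
    intro h11
    exact h6 (by rw [hcb, hcb']) (h11 h8)
  have hFu : ⋃ K, F K = univ := by
    rw [eq_univ_iff_forall]
    intro b
    rw [mem_iUnion]
    by_cases hbB : b ∈ ball b₀ r
    swap
    · exact ⟨0, by rw [hFe, mem_ofPred_eq]; exact fun h => absurd h hbB⟩
    obtain ⟨hdb, hnb, -, -, hnf⟩ := hball b hbB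
    obtain ⟨K', hK'⟩ := slo_of_notP hR hF hSP hC (by rw [hdb]; exact hd) hnb hnf
    rw [hdb] at hK'
    obtain ⟨K, hK⟩ := exists_nat_ge K'
    refine ⟨K, ?_⟩
    rw [hFe, mem_ofPred_eq]
    intro _
    exact hK'.mono hK
  have hdense := dense_iUnion_interior_of_closed hFc hFu
  obtain ⟨b₁, hb₁, hb₁'⟩ := hdense.inter_open_nonempty (ball b₀ r) isOpen_ball
    ⟨b₀, mem_ball_self hr⟩
  rw [mem_iUnion] at hb₁'
  obtain ⟨K, hK⟩ := hb₁'
  refine ⟨b₁, K, (hball b₁ hb₁).2.2.2.1, ?_⟩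
  filter_upwards [isOpen_interior.mem_nhds hK, isOpen_ball.mem_nhds hb₁] with b h1 h2
  obtain ⟨hdb, hnb, -, -⟩ := hball b h2
  have h3 := interior_subset h1
  rw [hFe, mem_ofPred_eq] at h3
  exact ⟨hdb, hnb, h3 h2⟩

end Pool.Agent.Zk29.Po
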