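import Pool.Agent.Zk29.Po.S3

/-!
# The theorem for polynomials
-/

set_option autoImplicit false

open Filter Topology Metric Set Polynomial
open scoped OnePoint

namespace Pool.Agent.Zk29.Po

open Pool.Agent.H792R2.CE Pool.Agent.Helper114.Herman
open Pool.Agent.H713R5.QJ (ev Good opg_holds)
open Pool.Agent.Zk29.Mu (chord chord_nonneg Slo Sink Basin HasSink FrG mult Cl Hyp)

variable {d : ℕ} {T : ℂ[X]}

lemma basin_inf (hB : S_BAS) (hd : 2 ≤ T.natDegree) : Basin (sph T.natDegree T 1) ∞ := by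
  have hs := (hB T hd).1
  have h1 : sph T.natDegree T 1 ∞ = ∞ := by
    have := hs.2.1
    rwa [Function.iterate_one] at this
  refine ⟨1, ∞, hs, ?_⟩
  refine tendsto_const_nhds.congr fun k => ?_
  rw [Function.iterate_fixed h1]

lemma der_ne (hd : 2 ≤ T.natDegree) : derivative T ≠ 0 := by
  intro h
  have := derivative_eq_zero.1 h
  omega

/-- The free critical points on the sphere and in the plane. -/
lemma frG_eq (hB : S_BAS) (hd : 2 ≤ T.natDegree) : FrG T.natDegree T 1 = FpC T := by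
  ext c
  constructor
  · rintro ⟨h1, h2⟩
    induction c using OnePoint.rec with
    | infty => exact absurd (basin_inf hB hd) h2
    | coe z =>
      refine ⟨z, ⟨?_, ?_⟩, rfl⟩
      · have h3 : 1 ≤ (wr T 1).rootMultiplicity z := h1
        rw [wr_one] at h3
        exact (rootMultiplicity_pos (der_ne hd)).1 h3
      · rwa [(hB T hd).2 z] at h2
  · rintro ⟨z, ⟨h1, h2⟩, rfl⟩
    refine ⟨?_, ?_⟩
    · change 1 ≤ (wr T 1).rootMultiplicity z
      rw [wr_one]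
      exact (rootMultiplicity_pos (der_ne hd)).2 h1
    · change ¬ Basin (sph T.natDegree T 1) (z : OnePoint ℂ)
      rw [(hB T hd).2 z]
      exact h2

lemma sim_iff (hB : S_BAS) (hd : 2 ≤ T.natDegree) :
    (∀ c ∈ FrG T.natDegree T 1, mult T.natDegree T 1 c = 1) ↔ Sim T := by
  rw [frG_eq hB hd]
  constructor
  · intro h z hz h2
    have h3 : (wr T 1).rootMultiplicity z = 1 := h _ ⟨z, hz, rfl⟩
    rw [wr_one] at h3
    have h4 := (one_lt_rootMultiplicity_iff_isRoot (der_ne hd)).2 ⟨hz.1, h2⟩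
    omega
  · rintro h _ ⟨z, hz, rfl⟩
    change (wr T 1).rootMultiplicity z = 1
    rw [wr_one]
    have h1 : 0 < (derivative T).rootMultiplicity z := (rootMultiplicity_pos (der_ne hd)).2 hz.1
    have h2 : ¬ 1 < (derivative T).rootMultiplicity z := by
      intro h3
      exact h z hz ((one_lt_rootMultiplicity_iff_isRoot (der_ne hd)).1 h3).2
    omega

lemma ncard_eq (hB : S_BAS) (hd : 2 ≤ T.natDegree) :
    (FrG T.natDegree T 1).ncard = (Fp T).ncard := by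
  rw [frG_eq hB hd]
  exact Set.ncard_image_of_injective _ OnePoint.coe_injective

lemma fin_fr (hB : S_BAS) (hd : 2 ≤ T.natDegree) : (FrG T.natDegree T 1).Finite := by
  rw [frG_eq hB hd]
  exact (Fp_fin hd).image _

lemma hyp_of_empty (hB : S_BAS) (hH : S_HYPP) (hd : 2 ≤ T.natDegree)
    (he : FrG T.natDegree T 1 = ∅) : Hyp T 1 := by
  refine hH T hd fun z hz => ?_
  by_contra hg
  have h1 : (z : OnePoint ℂ) ∈ FrG T.natDegree T 1 := by
    rw [frG_eq hB hd]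
    exact ⟨z, ⟨hz, hg⟩, rfl⟩
  rw [he] at h1
  exact h1

lemma cl_pl {b : Fin (d + 1) → ℂ} {ε : ℝ} (hε : 0 < ε) (hb : ‖b‖ < ε) : Cl ε T 1 (T + pl b) 1 := by
  intro i
  rw [coeff_add, add_sub_cancel_left, pl_coeff, sub_self, norm_zero]
  refine ⟨?_, hε⟩
  split_ifs with h1
  · exact (norm_le_pi_norm b _).trans_lt hb
  · rw [norm_zero]
    exact hε

/-- **The theorem for polynomials.** -/
theorem mainP (hR : S_REG) (hF : S_FAM) (hSP : S_SPD) (hC : S_CPT) (hN : S_NEAR)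
    (hI : S_NICE) (hJ : S_JOINT) (hB : S_BAS) (hH : S_HYPP) (hd : 2 ≤ d) (hT : T.natDegree = d)
    {ε : ℝ} (hε : 0 < ε) :
    ∃ T₁ : ℂ[X], T₁.natDegree = d ∧ Cl ε T 1 T₁ 1 ∧
      (∃ η K : ℝ, 0 < η ∧ ∀ T' : ℂ[X], T'.natDegree = d → Cl η T₁ 1 T' 1 →
        (∀ c ∈ FrG d T' 1, mult d T' 1 c = 1) ∧ Slo K (sph d T' 1) (FrG d T' 1)) ∧
      ((∀ c ∈ FrG d T 1, mult d T 1 c = 1) → (∀ K : ℝ, ¬ Slo K (sph d T 1) (FrG d T 1)) →
        HasSink (sph d T₁ 1) ∧ (FrG d T₁ 1).Finite ∧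
          (FrG d T₁ 1).ncard < (FrG d T 1).ncard ∧ (FrG d T₁ 1 = ∅ → Hyp T₁ 1)) := by
  -- the starting polynomial
  obtain ⟨S, hSd, hSc, hSf⟩ : ∃ S : ℂ[X], S.natDegree = d ∧ Cl (ε / 2) T 1 S 1 ∧
      ((∀ c ∈ FrG d T 1, mult d T 1 c = 1) → (∀ K : ℝ, ¬ Slo K (sph d T 1) (FrG d T 1)) →
        Sim S ∧ (Fp S).ncard < (Fp T).ncard) := by
    by_cases hall : (∀ c ∈ FrG d T 1, mult d T 1 c = 1) ∧
        (∀ K : ℝ, ¬ Slo K (sph d T 1) (FrG d T 1))
    · obtain ⟨h1, h2⟩ := hall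
      rw [← hT] at hd h1 h2
      have hs : Sim T := (sim_iff hB hd).1 h1
      have hfew : FewP T := by
        by_contra hna
        obtain ⟨K, hK⟩ := slo_of_notP hR hF hSP hC hd hs hna
        apply h2 K
        rw [frG_eq hB hd]
        exact hK
      obtain ⟨S, e1, e2, e3, e4⟩ := hfew (ε / 2) (by positivity)
      refine ⟨S, by rw [e1, hT], fun i => ⟨e3 i, ?_⟩, fun _ _ => ⟨e2, e4⟩⟩
      rw [sub_self, norm_zero]
      positivity
    · refine ⟨T, hT, fun i => ?_, fun h1 h2 => absurd ⟨h1, h2⟩ hall⟩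
      simp only [sub_self, norm_zero]
      exact ⟨by positivity, by positivity⟩
  -- semicontinuity near the starting polynomial
  obtain ⟨ρ₀, hρ₀, husc⟩ : ∃ ρ₀ : ℝ, 0 < ρ₀ ∧ (Sim S →
      ∀ e : Fin (d + 1) → ℂ, ‖e‖ < ρ₀ → (Fp (S + pl e)).ncard ≤ (Fp S).ncard) := by
    by_cases hsim : Sim S
    · obtain ⟨ρ₀, hρ₀, h1⟩ := Metric.eventually_nhds_iff.1 (uscP hN hd hSd hsim)
      exact ⟨ρ₀, hρ₀, fun _ e he => (h1 (by rwa [dist_zero_right])).2.2⟩
    · exact ⟨1, one_pos, fun h => absurd h hsim⟩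
  obtain ⟨b₁, K, hb₁, hev⟩ := dense_unif3P hR hF hSP hC hN hI hJ hd hSd
    (ε := min (ε / 2) ρ₀) (by positivity)
  have hb₁' : ‖b₁‖ < ε / 2 := hb₁.trans_le (min_le_left _ _)
  have hb₁'' : ‖b₁‖ < ρ₀ := hb₁.trans_le (min_le_right _ _)
  obtain ⟨T₁, hT₁⟩ : ∃ T₁, T₁ = S + pl b₁ := ⟨_, rfl⟩
  have hT₁d : T₁.natDegree = d := by
    rw [hT₁]
    exact hev.self_of_nhds.1
  obtain ⟨η, hη, hball⟩ := Metric.eventually_nhds_iff.1 hev
  have hd₁ : 2 ≤ T₁.natDegree := by rw [hT₁d]; exact hd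
  refine ⟨T₁, hT₁d, ?_, ⟨η, K, hη, fun T' hT' hcl => ?_⟩, fun h1 h2 => ?_⟩
  · have h3 := hSc.trans (cl_pl (T := S) (ε := ε / 2) (by positivity) hb₁')
    rw [add_halves, ← hT₁] at h3
    exact h3
  · obtain ⟨a, ha⟩ : ∃ a : Fin (d + 1) → ℂ, a = fun i : Fin (d + 1) =>
      T'.coeff i - T₁.coeff i := ⟨_, rfl⟩
    have e3 : S + pl (a + b₁) = T' := by
      rw [pl_add, add_comm (pl a), ← add_assoc, ← hT₁, ha]
      ext k
      rw [coeff_add, pl_coeff]
      split_ifs with h8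
      · simp
      · rw [add_zero, coeff_eq_zero_of_natDegree_lt (p := T') (by omega),
          coeff_eq_zero_of_natDegree_lt (by omega)]
    obtain ⟨k1, k2, k3⟩ := hball (y := a + b₁) (by
      rw [dist_eq_norm, add_sub_cancel_right, ha, pi_norm_lt_iff hη]
      exact fun j => (hcl j).1)
    rw [e3] at k2 k3
    have hd' : 2 ≤ T'.natDegree := by rw [hT']; exact hd
    rw [← hT'] at k3 ⊢
    rw [sim_iff hB hd', frG_eq hB hd']
    exact ⟨k2, k3⟩
  · obtain ⟨k1, k2⟩ := hSf h1 h2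
    have k3 := husc k1 b₁ hb₁''
    rw [← hT₁] at k3
    have hs := (hB T₁ hd₁).1
    have hfin := fin_fr hB hd₁
    have hnc := ncard_eq hB hd₁
    have hhyp := hyp_of_empty hB hH hd₁
    have hnT : (FrG d T 1).ncard = (Fp T).ncard := by
      rw [← hT] at hd ⊢
      exact ncard_eq hB hd
    rw [hT₁d] at hs hfin hnc hhyp
    refine ⟨⟨1, ∞, hs⟩, hfin, ?_, hhyp⟩
    rw [hnc, hnT]
    omega

end Pool.Agent.Zk29.Po
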