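import Pool.Agent.Zk29.Po.S4

/-!
# The two cases
-/

set_option autoImplicit false

open Filter Topology Metric Set Polynomial
open scoped OnePoint

namespace Pool.Agent.Zk29.Po

open Pool.Agent.H792R2.CE Pool.Agent.Helper114.Herman
open Pool.Agent.H713R5.QJ (ev Good opg_holds)
open Pool.Agent.Zk29.Mu (chord chord_nonneg Slo Sink Basin HasSink FrG mult Cl Hyp RD rd_deg)

variable {d : ℕ} {P Q : ℂ[X]}

/-- `P / Q` is a polynomial of degree `d`. -/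
def PD (d : ℕ) (P Q : ℂ[X]) : Prop := Q = 1 ∧ P.natDegree = d

lemma sink_one (hB : S_BAS) (hd : 2 ≤ d) (hQ : Q = 1) (hP : P.natDegree = d) :
    HasSink (sph d P Q) := by
  subst hQ
  subst hP
  exact ⟨1, ∞, (hB P hd).1⟩

lemma deg_of_rd (hd : 2 ≤ d) (h : RD d P Q) (hQ : Q = 1) : P.natDegree = d := by
  have h1 := h.2
  rw [hQ, natDegree_one] at h1
  omega

/-- The rational case. -/
theorem mainR (hB : S_BAS) (hd : 2 ≤ d) (h0 : RD d P Q) {ε : ℝ} (hε : 0 < ε) :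
    ∃ P₁ Q₁ : ℂ[X], RD d P₁ Q₁ ∧ Cl ε P Q P₁ Q₁ ∧
      (∃ η K : ℝ, 0 < η ∧ ∀ P' Q' : ℂ[X], RD d P' Q' → Cl η P₁ Q₁ P' Q' →
        (HasSink (sph d P' Q') ∨ Q' = 1) →
          (∀ c ∈ FrG d P' Q', mult d P' Q' c = 1) ∧ Slo K (sph d P' Q') (FrG d P' Q')) ∧
      ((HasSink (sph d P Q) ∨ Q = 1) → (∀ c ∈ FrG d P Q, mult d P Q c = 1) →
        (∀ K : ℝ, ¬ Slo K (sph d P Q) (FrG d P Q)) →
        HasSink (sph d P₁ Q₁) ∧ (FrG d P₁ Q₁).Finite ∧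
          (FrG d P₁ Q₁).ncard < (FrG d P Q).ncard ∧ (FrG d P₁ Q₁ = ∅ → Hyp P₁ Q₁)) := by
  obtain ⟨P₁, Q₁, h1, h2, ⟨η, K, hη, h3⟩, h4⟩ := Pool.Agent.Zk29.Mu.mainS hd h0 hε
  refine ⟨P₁, Q₁, h1, h2, ⟨η, K, hη, fun P' Q' hV hcl hs => ?_⟩, fun hs => h4 ?_⟩
  · refine (h3 P' Q' (rd_deg hV).1 (rd_deg hV).2 hcl).2 ?_
    rcases hs with hs | hs
    · exact hs
    · exact sink_one hB hd hs (deg_of_rd hd hV hs)
  · rcases hs with hs | hs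
    · exact hs
    · exact sink_one hB hd hs (deg_of_rd hd h0 hs)

/-- The polynomial case. -/
theorem mainQ (hR : S_REG) (hF : S_FAM) (hSP : S_SPD) (hC : S_CPT) (hN : S_NEAR)
    (hI : S_NICE) (hJ : S_JOINT) (hB : S_BAS) (hH : S_HYPP) (hd : 2 ≤ d) (h0 : PD d P Q)
    {ε : ℝ} (hε : 0 < ε) :
    ∃ P₁ Q₁ : ℂ[X], PD d P₁ Q₁ ∧ Cl ε P Q P₁ Q₁ ∧
      (∃ η K : ℝ, 0 < η ∧ ∀ P' Q' : ℂ[X], PD d P' Q' → Cl η P₁ Q₁ P' Q' →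
        (HasSink (sph d P' Q') ∨ Q' = 1) →
          (∀ c ∈ FrG d P' Q', mult d P' Q' c = 1) ∧ Slo K (sph d P' Q') (FrG d P' Q')) ∧
      ((HasSink (sph d P Q) ∨ Q = 1) → (∀ c ∈ FrG d P Q, mult d P Q c = 1) →
        (∀ K : ℝ, ¬ Slo K (sph d P Q) (FrG d P Q)) →
        HasSink (sph d P₁ Q₁) ∧ (FrG d P₁ Q₁).Finite ∧
          (FrG d P₁ Q₁).ncard < (FrG d P Q).ncard ∧ (FrG d P₁ Q₁ = ∅ → Hyp P₁ Q₁)) := by
  obtain ⟨rfl, hP⟩ := h0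
  obtain ⟨T₁, h1, h2, ⟨η, K, hη, h3⟩, h4⟩ := mainP hR hF hSP hC hN hI hJ hB hH hd hP hε
  refine ⟨T₁, 1, ⟨rfl, h1⟩, h2, ⟨η, K, hη, ?_⟩, fun _ => h4⟩
  rintro P' Q' ⟨rfl, hP'⟩ hcl -
  exact h3 P' hP' hcl

end Pool.Agent.Zk29.Po
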