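import Pool.Agent.Zk29.Po.S5
import Pool.Agent.Zk29.Po.H1
import Pool.Agent.Zk9.Po.Reg
import Pool.Agent.Zk9.Po.Joint
import Pool.Agent.Zk50.Po.Near
import Pool.Agent.Zk50.Po.Disc
import Pool.Agent.Zk63.Po.Fam
import Pool.Agent.Zk71.Po.Bas
import Pool.Agent.Zk80.Po.Spd
import Pool.Agent.Zk85.Po.Trap

/-!
# The two theorems without hypotheses
-/

set_option autoImplicit false

open Filter Topology Metric Set Polynomial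
open scoped OnePoint

namespace Pool.Agent.Zk29.Po

open Pool.Agent.H792R2.CE Pool.Agent.Helper114.Herman
open Pool.Agent.H713R5.QJ (ev Good opg_holds)
open Pool.Agent.Zk29.Mu (chord chord_nonneg Slo Sink Basin HasSink FrG mult Cl Hyp RD rd_deg)

variable {d : ℕ} {P Q : ℂ[X]}

/-- The rational case. -/
theorem rat (hd : 2 ≤ d) (h0 : RD d P Q) {ε : ℝ} (hε : 0 < ε) :
    ∃ P₁ Q₁ : ℂ[X], RD d P₁ Q₁ ∧ Cl ε P Q P₁ Q₁ ∧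
      (∃ η K : ℝ, 0 < η ∧ ∀ P' Q' : ℂ[X], RD d P' Q' → Cl η P₁ Q₁ P' Q' →
        (HasSink (sph d P' Q') ∨ Q' = 1) →
          (∀ c ∈ FrG d P' Q', mult d P' Q' c = 1) ∧ Slo K (sph d P' Q') (FrG d P' Q')) ∧
      ((HasSink (sph d P Q) ∨ Q = 1) → (∀ c ∈ FrG d P Q, mult d P Q c = 1) →
        (∀ K : ℝ, ¬ Slo K (sph d P Q) (FrG d P Q)) →
        HasSink (sph d P₁ Q₁) ∧ (FrG d P₁ Q₁).Finite ∧
          (FrG d P₁ Q₁).ncard < (FrG d P Q).ncard ∧ (FrG d P₁ Q₁ = ∅ → Hyp P₁ Q₁)) :=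
  mainR Pool.Agent.Zk71.Po.bas hd h0 hε

/-- The polynomial case. -/
theorem pol (hd : 2 ≤ d) (h0 : PD d P Q) {ε : ℝ} (hε : 0 < ε) :
    ∃ P₁ Q₁ : ℂ[X], PD d P₁ Q₁ ∧ Cl ε P Q P₁ Q₁ ∧
      (∃ η K : ℝ, 0 < η ∧ ∀ P' Q' : ℂ[X], PD d P' Q' → Cl η P₁ Q₁ P' Q' →
        (HasSink (sph d P' Q') ∨ Q' = 1) →
          (∀ c ∈ FrG d P' Q', mult d P' Q' c = 1) ∧ Slo K (sph d P' Q') (FrG d P' Q')) ∧
      ((HasSink (sph d P Q) ∨ Q = 1) → (∀ c ∈ FrG d P Q, mult d P Q c = 1) →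
        (∀ K : ℝ, ¬ Slo K (sph d P Q) (FrG d P Q)) →
        HasSink (sph d P₁ Q₁) ∧ (FrG d P₁ Q₁).Finite ∧
          (FrG d P₁ Q₁).ncard < (FrG d P Q).ncard ∧ (FrG d P₁ Q₁ = ∅ → Hyp P₁ Q₁)) :=
  mainQ (Pool.Agent.Zk9.Po.reg Pool.Agent.Zk85.Po.trap Pool.Agent.Zk50.Po.cpt
    Pool.Agent.Zk50.Po.disc) Pool.Agent.Zk63.Po.fam Pool.Agent.Zk80.Po.spd Pool.Agent.Zk50.Po.cpt
    Pool.Agent.Zk50.Po.near Pool.Agent.Zk50.Po.nice Pool.Agent.Zk9.Po.joint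
    Pool.Agent.Zk71.Po.bas hyp hd h0 hε

end Pool.Agent.Zk29.Po

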